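import Mathlib
import Pool.Agent.Lib.MP_fffc5a_co.Defs
import Pool.Agent.Lib.MP_fffc5a_co.DefsH

/-!
The sharp maximum degree theorem (u = 1): definitions.
-/

set_option autoImplicit false

open Finset

namespace Pool.Agent.Lib.MP_fffc5a_co.T

/-- Squared distance on the slice of the indicator function of `F` and the linear function
`|F| / C(n,k) + ∑_{i ∈ Z} y i`. -/
noncomputable def dev {β : Type*} [Fintype β] [DecidableEq β] (k : ℕ) (F : Finset (Finset β))
    (y : β → ℝ) : ℝ :=
  ∑ Z ∈ powersetCard k univ,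
    (ind F Z - (F.card : ℝ) / ((Fintype.card β).choose k : ℝ) - ∑ i ∈ Z, y i) ^ 2

/-- All consequences of the first two levels used below: `y` is centred, the degrees of the points,
the variance identity, the scalar product with the indicator function. -/
structure IsLin {β : Type*} [Fintype β] [DecidableEq β] (k : ℕ) (F : Finset (Finset β))
    (y : β → ℝ) : Prop where
  sum_zero : ∑ i, y i = 0
  degree : ∀ x, ((F.filter fun s => x ∈ s).card : ℝ) =
    ((Fintype.card β - 1).choose (k - 1) : ℝ) * ((F.card : ℝ) / ((Fintype.card β).choose k : ℝ)) +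
      ((Fintype.card β - 2).choose (k - 1) : ℝ) * y x
  variance : ((Fintype.card β - 2).choose (k - 1) : ℝ) * ∑ i, y i ^ 2 + dev k F y =
    F.card - (F.card : ℝ) ^ 2 / ((Fintype.card β).choose k : ℝ)
  inner : ∑ Z ∈ F, ∑ i ∈ Z, y i = ((Fintype.card β - 2).choose (k - 1) : ℝ) * ∑ i, y i ^ 2

end Pool.Agent.Lib.MP_fffc5a_co.T
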