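import Mathlib
import Pool.Agent.Lib.MP_fffc5a_co.T.Defs
import Pool.Agent.Lib.MP_fffc5a_co.Lower

/-!
Lower bounds: the star and one further set, the co-star.
-/

set_option autoImplicit false

open Finset

namespace Pool.Agent.Lib.MP_fffc5a_co.T

/-- `UI 1 v F` if every member is disjoint from at most `v - 1` members of `F` (`1 ≤ k`, `1 ≤ v`). -/
theorem ui_of_degree {α : Type*} [DecidableEq α] {v : ℕ} (hv : 1 ≤ v) {F : Finset (Finset α)}
    (h : ∀ G ∈ F, (F.filter fun B => Disjoint G B).card ≤ v - 1) : UI 1 v F := by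
  intro A hA B hB hA1 hBv hdis
  obtain ⟨G, rfl⟩ := card_eq_one.1 hA1
  have hG : G ∈ F := hA (mem_singleton_self G)
  have hsub : B ⊆ F.filter fun B => Disjoint G B := by
    intro s hs
    refine mem_filter.2 ⟨hB hs, ?_⟩
    rw [disjoint_left] at hdis ⊢
    intro y hy hy'
    exact hdis (mem_biUnion.2 ⟨G, mem_singleton_self G, hy⟩) (mem_biUnion.2 ⟨s, hs, hy'⟩)
  have h1 := card_le_card hsub
  have h2 := h G hG
  omega

/-- Star at `x` and one further set `G₀ ∌ x`: `G₀` is disjoint from `C(n-k-1,k-1)` members of the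
star, a member of the star at most from `G₀`. -/
theorem low_star {n k v : ℕ} (hk : 1 ≤ k) (hn : 2 * k + 1 ≤ n)
    (hv : (n - k - 1).choose (k - 1) ≤ v - 1) :
    ∃ F : Finset (Finset (Fin n)), (∀ s ∈ F, s.card = k) ∧ UI 1 v F ∧
      (n - 1).choose (k - 1) + 1 ≤ F.card := by
  have hpos : 0 < (n - k - 1).choose (k - 1) := Nat.choose_pos (by omega)
  obtain ⟨x⟩ : Nonempty (Fin n) := ⟨⟨0, by omega⟩⟩
  have hcard : (univ.erase x : Finset (Fin n)).card = n - 1 := by
    rw [card_erase_of_mem (mem_univ x), card_univ, Fintype.card_fin]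
  obtain ⟨G₀, hG₀, hG₀c⟩ := exists_subset_card_eq (s := (univ.erase x : Finset (Fin n)))
    (n := k) (by rw [hcard]; omega)
  have hxG₀ : x ∉ G₀ := fun h => notMem_erase x univ (hG₀ h)
  have hG₀ne : G₀.Nonempty := card_pos.1 (by omega)
  obtain ⟨S, hS⟩ : ∃ S : Finset (Finset (Fin n)),
      S = ((univ.erase x).powersetCard (k - 1)).image (insert x) := ⟨_, rfl⟩
  have hinj : ∀ U : Finset (Finset (Fin n)), (∀ s ∈ U, x ∉ s) →
      Set.InjOn (insert x) (U : Set (Finset (Fin n))) := by
    intro U hU s hs t ht hst
    have h1 := congrArg (fun z => erase z x) hst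
    rwa [erase_insert (hU s (mem_coe.1 hs)), erase_insert (hU t (mem_coe.1 ht))] at h1
  have hSx : ∀ s ∈ S, x ∈ s ∧ s.card = k := by
    intro s hs
    rw [hS, mem_image] at hs
    obtain ⟨t, ht, rfl⟩ := hs
    rw [mem_powersetCard] at ht
    have hxt : x ∉ t := fun h => notMem_erase x univ (ht.1 h)
    refine ⟨mem_insert_self x t, ?_⟩
    rw [card_insert_of_notMem hxt, ht.2]
    omega
  have hSc : S.card = (n - 1).choose (k - 1) := by
    rw [hS, card_image_of_injOn, card_powersetCard, hcard]
    exact hinj _ fun s hs h => notMem_erase x univ ((mem_powersetCard.1 hs).1 h)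
  have hG₀S : G₀ ∉ S := fun h => hxG₀ (hSx _ h).1
  refine ⟨insert G₀ S, ?_, ui_of_degree (by omega) ?_, ?_⟩
  · intro s hs
    rcases mem_insert.1 hs with rfl | h
    · exact hG₀c
    · exact (hSx s h).2
  · intro G hG
    rcases mem_insert.1 hG with rfl | h
    · refine le_trans ?_ hv
      have hsub : ((insert G S).filter fun B => Disjoint G B) ⊆
          ((univ \ insert x G).powersetCard (k - 1)).image (insert x) := by
        intro B hB
        rw [mem_filter] at hB
        rcases mem_insert.1 hB.1 with rfl | hBS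
        · exact absurd (disjoint_self.1 hB.2) hG₀ne.ne_empty
        · rw [hS, mem_image] at hBS
          obtain ⟨t, ht, rfl⟩ := hBS
          rw [mem_powersetCard] at ht
          refine mem_image.2 ⟨t, mem_powersetCard.2 ⟨?_, ht.2⟩, rfl⟩
          intro y hy
          rw [mem_sdiff, mem_insert]
          refine ⟨mem_univ y, ?_⟩
          rintro (rfl | hyG)
          · exact notMem_erase y univ (ht.1 hy)
          · exact disjoint_left.1 hB.2 hyG (mem_insert_of_mem hy)
      refine le_trans (card_le_card hsub) (le_trans card_image_le ?_)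
      rw [card_powersetCard, card_sdiff_of_subset (subset_univ _), card_insert_of_notMem hxG₀,
        card_univ, Fintype.card_fin, hG₀c]
      exact le_of_eq (by rw [show n - (k + 1) = n - k - 1 by omega])
    · have hsub : ((insert G₀ S).filter fun B => Disjoint G B) ⊆ {G₀} := by
        intro B hB
        rw [mem_filter] at hB
        rcases mem_insert.1 hB.1 with rfl | hBS
        · exact mem_singleton_self _
        · exact absurd (hSx B hBS).1 (disjoint_left.1 hB.2 (hSx G h).1)
      have := card_le_card hsub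
      rw [card_singleton] at this
      omega
  · rw [card_insert_of_notMem hG₀S, hSc]

/-- All `k`-sets without the point `x`. -/
theorem low_costar {n k v : ℕ} (hk : 1 ≤ k) (hn : 2 * k + 1 ≤ n)
    (hv : (n - k - 1).choose k ≤ v - 1) :
    ∃ F : Finset (Finset (Fin n)), (∀ s ∈ F, s.card = k) ∧ UI 1 v F ∧
      (n - 1).choose (k - 1) + 1 ≤ F.card := by
  have hpos : 0 < (n - k - 1).choose k := Nat.choose_pos (by omega)
  obtain ⟨x⟩ : Nonempty (Fin n) := ⟨⟨0, by omega⟩⟩
  have hcard : (univ.erase x : Finset (Fin n)).card = n - 1 := by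
    rw [card_erase_of_mem (mem_univ x), card_univ, Fintype.card_fin]
  refine ⟨powersetCard k (univ.erase x), fun s hs => (mem_powersetCard.1 hs).2,
    ui_of_degree (by omega) ?_, ?_⟩
  · intro G hG
    rw [mem_powersetCard] at hG
    have hxG : x ∉ G := fun h => notMem_erase x univ (hG.1 h)
    refine le_trans ?_ hv
    have hsub : ((powersetCard k (univ.erase x)).filter fun B => Disjoint G B) ⊆
        (univ \ insert x G).powersetCard k := by
      intro B hB
      rw [mem_filter, mem_powersetCard] at hB
      refine mem_powersetCard.2 ⟨?_, hB.1.2⟩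
      intro y hy
      rw [mem_sdiff, mem_insert]
      refine ⟨mem_univ y, ?_⟩
      rintro (rfl | hyG)
      · exact notMem_erase y univ (hB.1.1 hy)
      · exact disjoint_left.1 hB.2 hyG hy
    refine le_trans (card_le_card hsub) ?_
    rw [card_powersetCard, card_sdiff_of_subset (subset_univ _), card_insert_of_notMem hxG,
      card_univ, Fintype.card_fin, hG.2]
    exact le_of_eq (by rw [show n - (k + 1) = n - k - 1 by omega])
  · rw [card_powersetCard, hcard]
    have h1 : (n - 1).choose k * k = (n - 1).choose (k - 1) * (n - 1 - (k - 1)) := by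
      obtain ⟨j, rfl⟩ : ∃ j, k = j + 1 := ⟨k - 1, by omega⟩
      have := Nat.choose_succ_right_eq (n - 1) j
      simpa using this
    have hc : 0 < (n - 1).choose (k - 1) := Nat.choose_pos (by omega)
    by_contra hlt
    push Not at hlt
    have h2 : (n - 1).choose k * k ≤ (n - 1).choose (k - 1) * k :=
      Nat.mul_le_mul_right _ (by omega)
    have h3 : (n - 1).choose (k - 1) * (k + 1) ≤ (n - 1).choose (k - 1) * (n - 1 - (k - 1)) :=
      Nat.mul_le_mul_left _ (by omega)
    have h4 : (n - 1).choose (k - 1) * (k + 1) = (n - 1).choose (k - 1) * k +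
      (n - 1).choose (k - 1) := by ring
    omega

end Pool.Agent.Lib.MP_fffc5a_co.T
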