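import Mathlib
import Pool.Agent.Lib.MP_fffc5a_co.T.Defs
import Pool.Agent.Lib.MP_fffc5a_co.UpOrth
import Pool.Agent.Lib.MP_fffc5a_co.OpSums
import Pool.Agent.Lib.MP_fffc5a_co.PairBound
import Pool.Agent.Lib.MP_fffc5a_co.PartAvg
import Pool.Agent.Lib.MP_fffc5a_co.UpFormula

/-!
Extras and missing sets of a star: the spectral bound.
-/

set_option autoImplicit false

open Finset

namespace Pool.Agent.Lib.MP_fffc5a_co.T

/-- the numerical core -/
theorem ss_num {e m W t μ ν d R : ℝ} (he : 0 < e) (hW : 0 < W) (ht0 : 0 ≤ t) (ht1 : t ≤ 1)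
    (hμ0 : 0 ≤ μ) (hμ : μ ≤ 1 / 4) (hν : (1 - t) * μ ≤ ν) (hν1 : ν ≤ 1) (hm : m ≤ e)
    (hR : R ^ 2 ≤ W * (W * (1 - t)) * (e * (1 - ν)) * (m * (1 - μ)))
    (h : e * (W - d) ≤ e * μ * W + R) : W * t ≤ 4 * d := by
  by_contra hcon
  push Not at hcon
  have h1 : e * (W * (1 - t / 4 - μ)) < R := by
    have h2 : e * (W * (1 - t / 4 - μ)) < e * (W - d - μ * W) :=
      mul_lt_mul_of_pos_left (by linarith) he
    linarith
  have h3 : 0 ≤ e * (W * (1 - t / 4 - μ)) := by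
    apply mul_nonneg he.le
    apply mul_nonneg hW.le
    linarith
  have h4 : (e * (W * (1 - t / 4 - μ))) ^ 2 < R ^ 2 := by
    exact pow_lt_pow_left₀ h1 h3 two_ne_zero
  have h5 : W * (W * (1 - t)) * (e * (1 - ν)) * (m * (1 - μ)) ≤
      W * (W * (1 - t)) * (e * (1 - (1 - t) * μ)) * (e * (1 - μ)) := by
    have a1 : 0 ≤ W * (W * (1 - t)) := mul_nonneg hW.le (mul_nonneg hW.le (by linarith))
    have a2 : e * (1 - ν) ≤ e * (1 - (1 - t) * μ) :=
      mul_le_mul_of_nonneg_left (by linarith) he.le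
    have a3 : m * (1 - μ) ≤ e * (1 - μ) := mul_le_mul_of_nonneg_right hm (by linarith)
    have a4 : 0 ≤ e * (1 - ν) := mul_nonneg he.le (by linarith)
    have a5 : 0 ≤ e * (1 - μ) := mul_nonneg he.le (by linarith)
    calc W * (W * (1 - t)) * (e * (1 - ν)) * (m * (1 - μ))
        ≤ W * (W * (1 - t)) * (e * (1 - ν)) * (e * (1 - μ)) :=
          mul_le_mul_of_nonneg_left a3 (mul_nonneg a1 a4)
      _ ≤ W * (W * (1 - t)) * (e * (1 - (1 - t) * μ)) * (e * (1 - μ)) :=
          mul_le_mul_of_nonneg_right (mul_le_mul_of_nonneg_left a2 a1) a5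
  have h6 : W * (W * (1 - t)) * (e * (1 - (1 - t) * μ)) * (e * (1 - μ)) ≤
      (e * (W * (1 - t / 4 - μ))) ^ 2 := by
    have b1 : (e * (W * (1 - t / 4 - μ))) ^ 2 -
        W * (W * (1 - t)) * (e * (1 - (1 - t) * μ)) * (e * (1 - μ)) =
        (e * W) ^ 2 * (t * (1 - μ) * (1 / 2 - 2 * μ + μ * t) + t ^ 2 / 16) := by ring
    have b2 : 0 ≤ (e * W) ^ 2 * (t * (1 - μ) * (1 / 2 - 2 * μ + μ * t) + t ^ 2 / 16) := by
      apply mul_nonneg (sq_nonneg _)
      apply add_nonneg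
      · apply mul_nonneg (mul_nonneg ht0 (by linarith))
        have := mul_nonneg hμ0 ht0
        linarith
      · positivity
    linarith
  linarith

theorem ss_prod (m a : ℕ) :
    ∏ i ∈ range a, (((m + 2 : ℕ) : ℝ) + i - (0 : ℕ)) * (((2 * m + a + 3 : ℕ) : ℝ) -
      ((m + 2 : ℕ) : ℝ) - i - (0 : ℕ) - 1) =
    (a.factorial : ℝ) ^ 2 * (((m + a + 1).choose a : ℝ) * ((m + a).choose a : ℝ)) := by
  rw [Finset.prod_mul_distrib]
  have h1 : ∏ i ∈ range a, (((m + 2 : ℕ) : ℝ) + i - (0 : ℕ)) =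
      (a.factorial : ℝ) * ((m + a + 1).choose a : ℝ) := by
    have e1 := Nat.ascFactorial_eq_prod_range (m + 2) a
    have e2 := Nat.ascFactorial_eq_factorial_mul_choose (m + 1) a
    have e3 : m + 1 + a = m + a + 1 := by ring
    rw [e3] at e2
    have e4 : ∏ i ∈ range a, (m + 2 + i) = a.factorial * (m + a + 1).choose a := by
      rw [← e1, ← e2]
    have e5 : ∏ i ∈ range a, (((m + 2 : ℕ) : ℝ) + i - (0 : ℕ)) =
        ((∏ i ∈ range a, (m + 2 + i) : ℕ) : ℝ) := by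
      push_cast
      exact Finset.prod_congr rfl fun i _ => by ring
    rw [e5, e4]
    push_cast
    ring
  have h2 : ∏ i ∈ range a, (((2 * m + a + 3 : ℕ) : ℝ) - ((m + 2 : ℕ) : ℝ) - i - (0 : ℕ) - 1) =
      (a.factorial : ℝ) * ((m + a).choose a : ℝ) := by
    have e1 := Nat.descFactorial_eq_prod_range (m + a) a
    have e2 := Nat.descFactorial_eq_factorial_mul_choose (m + a) a
    have e4 : ∏ i ∈ range a, (m + a - i) = a.factorial * (m + a).choose a := by
      rw [← e1, ← e2]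
    have e5 : ∏ i ∈ range a, (((2 * m + a + 3 : ℕ) : ℝ) - ((m + 2 : ℕ) : ℝ) - i - (0 : ℕ) - 1) =
        ((∏ i ∈ range a, (m + a - i) : ℕ) : ℝ) := by
      rw [Nat.cast_prod]
      refine Finset.prod_congr rfl fun i hi => ?_
      rw [Nat.cast_sub (by have := mem_range.1 hi; omega)]
      push_cast
      ring
    rw [e5, e4]
    push_cast
    ring
  rw [h1, h2]
  ring

/-- `M` (complements of the missing members of the star) and `E` (extras) in `β`, `|β| = 2k+a-1`.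
Let `W = C(k+a-1,a)` (number of `(k+a)`-sets over a `k`-set), `V = C(2k+a-1,k)`,
`L = C(2k+a-1,k+a) = C(2k+a-1,k-1)`, `V k = L (k+a)`, `W V = L C(k+a,k)`, `e = |E|`, `m = |M| < e`,
`μ = m/L`, `ν = e/V ≥ μ k/(k+a)`. The number of pairs `G ∈ E`, `Y ∈ M`, `G ⊆ Y` is at least
`e (W - d)`, and it is `(1/a!) ∑_{Y ∈ M} (Up^[a] (ind E)) Y` (`up_iter_ind`), i.e.
`e m W/L + (1/a!) ∑_Y (Up^[a] (ind E - ν)) Y (ind M Y - μ)`. Cauchy-Schwarz, `up_orth` with `d = 0`,
`r = k`, `j = a` (`∏ (k+i)(k+a-2-i) = (a!)² W C(k+a-2,a)`, compare `k10_prod` in Hoffman),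
`nsq k (ind E - ν) = e (1-ν)`, `nsq (k+a) (ind M - μ) = m (1-μ)` (`h5_nsq` in PairBound):
`≤ e m W/L + √(W C(k+a-2,a) e m (1-ν)(1-μ))`, and `C(k+a-2,a) = θ² W`, `θ² = (k-1)/(k+a-1)`.
As `m ≤ e`, `√((1-ν)(1-μ)) ≤ 1 - (ν+μ)/2`, this is at most
`W e (μ + θ (1 - (ν+μ)/2)) ≤ W e (θ + μ (1 - θ (2k+a)/(2(k+a)))) ≤ W e (θ + 2 (1-θ) μ)`
because `1 - θ ≥ a/(2(k+a-1)) ≥ a/(2(k+a))`. So
`d ≥ W (1-θ)(1-2μ) ≥ W (1-θ)/2 ≥ W a/(4(k+a-1))`. -/
theorem star_spec {β : Type*} [Fintype β] [DecidableEq β] {k a d : ℕ} (hk : 2 ≤ k) (ha : 1 ≤ a)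
    (hN : Fintype.card β = 2 * k + a - 1) {E M : Finset (Finset β)} (hE : ∀ s ∈ E, s.card = k)
    (hM : ∀ s ∈ M, s.card = k + a)
    (hd : ∀ G ∈ E, ((powersetCard (k + a) univ).filter fun Y => G ⊆ Y ∧ Y ∉ M).card ≤ d)
    (hEM : M.card < E.card) (hML : 4 * M.card ≤ (2 * k + a - 1).choose (k - 1)) :
    (k + a - 1).choose a * a ≤ 4 * (k + a - 1) * d := by
  classical
  obtain ⟨m, rfl⟩ : ∃ m, k = m + 2 := ⟨k - 2, by omega⟩
  have e1 : m + 2 + a - 1 = m + a + 1 := by omega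
  have e2 : 2 * (m + 2) + a - 1 = 2 * m + a + 3 := by omega
  rw [e1]
  rw [e2] at hN hML
  have e3 : m + 2 - 1 = m + 1 := by omega
  rw [e3] at hML
  have hLs : (2 * m + a + 3).choose (m + 1) = (2 * m + a + 3).choose (m + 2 + a) :=
    Nat.choose_symm_of_eq_add (by ring)
  rw [hLs] at hML
  obtain ⟨L, hLdef⟩ : ∃ L, L = (2 * m + a + 3).choose (m + 2 + a) := ⟨_, rfl⟩
  obtain ⟨V, hVdef⟩ : ∃ V, V = (2 * m + a + 3).choose (m + 2) := ⟨_, rfl⟩
  obtain ⟨W, hWdef⟩ : ∃ W, W = (m + a + 1).choose a := ⟨_, rfl⟩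
  obtain ⟨W2, hW2def⟩ : ∃ W2, W2 = (m + a).choose a := ⟨_, rfl⟩
  obtain ⟨C, hCdef⟩ : ∃ C, C = (m + 2 + a).choose (m + 2) := ⟨_, rfl⟩
  rw [← hLdef] at hML
  rw [← hWdef]
  have hLpos : 0 < L := by rw [hLdef]; exact Nat.choose_pos (by omega)
  have hVpos : 0 < V := by rw [hVdef]; exact Nat.choose_pos (by omega)
  have hWpos : 0 < W := by rw [hWdef]; exact Nat.choose_pos (by omega)
  -- relations between the binomial coefficients
  have r1 : V * (m + 2) = L * (m + 2 + a) := by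
    have h := Nat.choose_succ_right_eq (2 * m + a + 3) (m + 1)
    have h2 : 2 * m + a + 3 - (m + 1) = m + 2 + a := by omega
    rw [h2] at h
    rw [hVdef, hLdef, ← hLs]
    exact h
  have r2 : W2 * (m + a + 1) = W * (m + 1) := by
    have h := Nat.choose_mul_succ_eq (m + a) a
    have h2 : m + a + 1 - a = m + 1 := by omega
    rw [h2] at h
    rw [hW2def, hWdef]
    exact h
  have r3 : C * L = V * W := by
    -- `C(N,k+a) C(k+a,k) = C(N,k) C(N-k,a)`
    have h := Nat.choose_mul (n := 2 * m + a + 3) (k := m + 2 + a) (s := m + 2) (by omega)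
    have h2 : 2 * m + a + 3 - (m + 2) = m + a + 1 := by omega
    have h3 : m + 2 + a - (m + 2) = a := by omega
    rw [h2, h3] at h
    rw [hCdef, hLdef, hVdef, hWdef, mul_comm]
    exact h
  -- the two means
  obtain ⟨ν, hν⟩ : ∃ ν : ℝ, ν = (E.card : ℝ) / V := ⟨_, rfl⟩
  obtain ⟨μ, hμ⟩ : ∃ μ : ℝ, μ = (M.card : ℝ) / L := ⟨_, rfl⟩
  have hVR : (0 : ℝ) < V := by exact_mod_cast hVpos
  have hLR : (0 : ℝ) < L := by exact_mod_cast hLpos
  have hWR : (0 : ℝ) < W := by exact_mod_cast hWpos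
  have hνV : ν * ((Fintype.card β).choose (m + 2) : ℝ) = E.card := by
    rw [hN, ← hVdef, hν]
    field_simp
  have hμL : μ * ((Fintype.card β).choose (m + 2 + a) : ℝ) = M.card := by
    rw [hN, ← hLdef, hμ]
    field_simp
  have hnE := h5_nsq hE hνV
  have hnM := h5_nsq hM hμL
  obtain ⟨h, hh⟩ : ∃ h : Finset β → ℝ, h = fun Z => ind E Z - ν := ⟨_, rfl⟩
  have hh0 : ∀ J : Finset β, J.card = 0 → (Dn^[m + 2 - 0] h) J = 0 := by
    have h1 := sum_dn_iter (β := β) (m + 2) 0 h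
    rw [Nat.zero_add, hh, h5_sum_zero hE hνV, mul_zero] at h1
    simp only [Nat.factorial_zero, Nat.cast_one, one_mul, powersetCard_zero, sum_singleton] at h1
    intro J hJ
    rw [card_eq_zero.1 hJ, Nat.sub_zero, hh]
    exact h1
  have hup := up_orth (d := 0) (r := m + 2) (by omega) a (by rw [hN]; omega) hh0
  rw [hN, ss_prod, ← hWdef, ← hW2def] at hup
  -- the function `S Y = ∑_{J ⊆ Y} h J`
  obtain ⟨S, hS⟩ : ∃ S : Finset β → ℝ, S = fun Y => ∑ J ∈ powersetCard (m + 2) Y, h J := ⟨_, rfl⟩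
  have hfa : (0 : ℝ) < (a.factorial : ℝ) := by exact_mod_cast Nat.factorial_pos a
  have hSU : ∀ Y ∈ powersetCard (m + 2 + a) (univ : Finset β),
      (Up^[a] h) Y = a.factorial * S Y := by
    intro Y hY
    rw [up_iter_formula h a (m + 2) Y (mem_powersetCard.1 hY).2, hS]
  have hSn : nsq (m + 2 + a) S ≤ (W : ℝ) * W2 * nsq (m + 2) h := by
    have h1 : nsq (m + 2 + a) (Up^[a] h) = (a.factorial : ℝ) ^ 2 * nsq (m + 2 + a) S := by
      unfold nsq
      rw [mul_sum]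
      refine sum_congr rfl fun Y hY => ?_
      rw [hSU Y hY]
      ring
    rw [h1] at hup
    have h2 : (a.factorial : ℝ) ^ 2 * nsq (m + 2 + a) S ≤
        (a.factorial : ℝ) ^ 2 * ((W : ℝ) * W2 * nsq (m + 2) h) := by
      refine hup.trans (le_of_eq ?_)
      ring
    exact le_of_mul_le_mul_left h2 (by positivity)
  have hS0 : ∑ Y ∈ powersetCard (m + 2 + a) (univ : Finset β), S Y = 0 := by
    have h1 := sum_up_iter a (m + 2) (by rw [hN]; omega) h
    rw [sum_congr rfl hSU, ← mul_sum] at h1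
    have h2 : ∑ Z ∈ powersetCard (m + 2) (univ : Finset β), h Z = 0 := by
      rw [hh]
      exact h5_sum_zero hE hνV
    rw [h2, mul_zero] at h1
    rcases mul_eq_zero.1 h1 with h3 | h3
    · exact absurd h3 hfa.ne'
    · exact h3
  -- the number of incidences
  have hcount : ∀ Y ∈ powersetCard (m + 2 + a) (univ : Finset β),
      ((E.filter fun s => s ⊆ Y).card : ℝ) = S Y + ν * C := by
    intro Y hY
    have hYc := (mem_powersetCard.1 hY).2
    have h1 : ((E.filter fun s => s ⊆ Y).card : ℝ) =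
        ∑ J ∈ powersetCard (m + 2) Y, ind E J := by
      unfold ind
      rw [← sum_filter, sum_const, nsmul_eq_mul, mul_one]
      congr 2
      ext J
      simp only [mem_filter, mem_powersetCard]
      exact ⟨fun ⟨h2, h3⟩ => ⟨⟨h3, hE J h2⟩, h2⟩, fun ⟨⟨h2, _⟩, h3⟩ => ⟨h3, h2⟩⟩
    rw [h1, hS]
    simp only [hh]
    rw [sum_sub_distrib, sum_const, card_powersetCard, hYc, nsmul_eq_mul, ← hCdef]
    ring
  have hMsub : M ⊆ powersetCard (m + 2 + a) (univ : Finset β) := fun Y hY =>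
    mem_powersetCard.2 ⟨subset_univ _, hM Y hY⟩
  have hswap : ∑ Y ∈ M, ((E.filter fun s => s ⊆ Y).card : ℝ) =
      ∑ G ∈ E, ((M.filter fun Y => G ⊆ Y).card : ℝ) := by
    simp only [card_filter]
    push_cast
    rw [sum_comm]
  have hlow : (E.card : ℝ) * (W - d) ≤ ∑ G ∈ E, ((M.filter fun Y => G ⊆ Y).card : ℝ) := by
    rw [← nsmul_eq_mul]
    refine card_nsmul_le_sum _ _ _ fun G hG => ?_
    have h1 := hd G hG
    have h2 : ((powersetCard (m + 2 + a) (univ : Finset β)).filter fun Y => G ⊆ Y).card = W := by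
      have h3 := e1_count G ∅ (disjoint_empty_right _) a
      rw [card_empty, Nat.add_zero, hE G hG, hN] at h3
      have h4 : 2 * m + a + 3 - (m + 2) = m + a + 1 := by omega
      rw [h4, ← hWdef] at h3
      rw [← h3]
      congr 1
      ext Y
      simp
    have h3 : ((powersetCard (m + 2 + a) (univ : Finset β)).filter fun Y => G ⊆ Y).card ≤
        (M.filter fun Y => G ⊆ Y).card +
        ((powersetCard (m + 2 + a) (univ : Finset β)).filter fun Y => G ⊆ Y ∧ Y ∉ M).card := by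
      refine le_trans (card_le_card ?_) (card_union_le _ _)
      intro Y hY
      rw [mem_filter] at hY
      rw [mem_union, mem_filter, mem_filter]
      by_cases hYM : Y ∈ M
      · exact Or.inl ⟨hYM, hY.2⟩
      · exact Or.inr ⟨hY.1, hY.2, hYM⟩
    have h4 : W ≤ (M.filter fun Y => G ⊆ Y).card + d := by
      rw [h2] at h3
      omega
    have h5 : (W : ℝ) ≤ (M.filter fun Y => G ⊆ Y).card + d := by exact_mod_cast h4
    linarith
  obtain ⟨R, hR⟩ : ∃ R : ℝ, R = ∑ Y ∈ powersetCard (m + 2 + a) (univ : Finset β),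
    S Y * (ind M Y - μ) := ⟨_, rfl⟩
  have hRsum : ∑ Y ∈ M, ((E.filter fun s => s ⊆ Y).card : ℝ) = E.card * μ * W + R := by
    have h1 : ∑ Y ∈ M, ((E.filter fun s => s ⊆ Y).card : ℝ) = ∑ Y ∈ M, S Y + M.card * (ν * C) := by
      rw [sum_congr rfl fun Y hY => hcount Y (hMsub hY), sum_add_distrib, sum_const, nsmul_eq_mul]
    have h2 : R = ∑ Y ∈ M, S Y := by
      rw [hR]
      have h3 : ∀ Y ∈ powersetCard (m + 2 + a) (univ : Finset β), S Y * (ind M Y - μ) =
          (if Y ∈ M then S Y else 0) - μ * S Y := by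
        intro Y _
        unfold ind
        split_ifs <;> ring
      rw [sum_congr rfl h3, sum_sub_distrib, ← mul_sum, hS0, mul_zero, sub_zero, ← sum_filter]
      congr 1
      ext Y
      simp only [mem_filter]
      exact ⟨fun h4 => h4.2, fun h4 => ⟨hMsub h4, h4⟩⟩
    rw [h1, h2, hν, hμ]
    have h3 : (C : ℝ) * L = V * W := by exact_mod_cast r3
    have h4 : (M.card : ℝ) * (E.card / V * C) = E.card * (M.card / L) * W := by
      field_simp
      linear_combination (M.card : ℝ) * E.card * h3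
    rw [h4]
    ring
  have hR2 : R ^ 2 ≤ (W : ℝ) * ((W : ℝ) * (1 - (a : ℝ) / (m + a + 1))) * (E.card * (1 - ν)) *
      (M.card * (1 - μ)) := by
    have h1 : R ^ 2 ≤ nsq (m + 2 + a) S * nsq (m + 2 + a) (fun Z => ind M Z - μ) := by
      rw [hR]
      exact sum_mul_sq_le_sq_mul_sq _ _ _
    have h2 : nsq (m + 2) h = E.card * (1 - ν) := by
      rw [hh, hnE, ← hνV]
      ring
    have h3 : nsq (m + 2 + a) (fun Z => ind M Z - μ) = M.card * (1 - μ) := by
      rw [hnM, ← hμL]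
      ring
    have h4 : (W2 : ℝ) = W * (1 - (a : ℝ) / (m + a + 1)) := by
      have h5 : (W2 : ℝ) * (m + a + 1) = W * (m + 1) := by exact_mod_cast r2
      have h6 : ((m : ℝ) + a + 1) ≠ 0 := by positivity
      field_simp
      linear_combination h5
    rw [h2] at hSn
    rw [h3] at h1
    refine h1.trans ?_
    rw [← h4]
    refine (mul_le_mul_of_nonneg_right hSn ?_).trans (le_of_eq ?_)
    · rw [← h3]
      exact h2_nsq_nonneg _ _
    · ring
  have hμ4 : μ ≤ 1 / 4 := by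
    rw [hμ, div_le_iff₀ hLR]
    have h1 : (4 : ℝ) * M.card ≤ L := by exact_mod_cast hML
    linarith
  have hμ0 : 0 ≤ μ := by rw [hμ]; positivity
  have hν1 : ν ≤ 1 := by
    rw [hν, div_le_one hVR]
    have h1 := h5_card_le hE
    rw [hN, ← hVdef] at h1
    exact_mod_cast h1
  have ha0 : (0 : ℝ) ≤ a := Nat.cast_nonneg a
  have hm0 : (0 : ℝ) ≤ m := Nat.cast_nonneg m
  have hme : (M.card : ℝ) ≤ E.card := by exact_mod_cast hEM.le
  have hνμ : (1 - (a : ℝ) / (m + a + 1)) * μ ≤ ν := by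
    have h1 : (V : ℝ) * (m + 2) = L * (m + 2 + a) := by exact_mod_cast r1
    have h2 : (1 - (a : ℝ) / (m + a + 1)) ≤ (m + 2) / (m + 2 + a) := by
      have h6 : ((m : ℝ) + a + 1) ≠ 0 := by positivity
      have h3 : (1 - (a : ℝ) / (m + a + 1)) = (m + 1) / (m + a + 1) := by
        field_simp
        ring
      rw [h3, div_le_div_iff₀ (by positivity) (by positivity)]
      nlinarith
    have h3 : ν = (m + 2) / (m + 2 + a) * (E.card / L) := by
      rw [hν]
      have h7 : ((m : ℝ) + 2 + a) ≠ 0 := by positivity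
      field_simp
      linear_combination (-(E.card : ℝ)) * h1
    rw [h3, hμ]
    have h4 : (M.card : ℝ) / L ≤ E.card / L := div_le_div_of_nonneg_right hme hLR.le
    exact mul_le_mul h2 h4 (by positivity) (by positivity)
  have hE0 : (0 : ℝ) < E.card := by
    have : 0 < E.card := by omega
    exact_mod_cast this
  have hfin := ss_num (e := E.card) (m := M.card) (W := W) (t := (a : ℝ) / (m + a + 1)) (μ := μ)
    (ν := ν) (d := d) (R := R) hE0 hWR (by positivity)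
    (by rw [div_le_one (by positivity)]; linarith) hμ0 hμ4 hνμ hν1 hme hR2
    (by rw [← hRsum, hswap]; exact hlow)
  have h1 : (W : ℝ) * a ≤ 4 * (m + a + 1) * d := by
    rw [mul_div_assoc', div_le_iff₀ (by positivity)] at hfin
    linarith
  exact_mod_cast h1

end Pool.Agent.Lib.MP_fffc5a_co.T
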