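import Mathlib
import Pool.Agent.Lib.MP_fffc5a_co.T.Defs
import Pool.Agent.Lib.MP_fffc5a_co.Hoffman
import Pool.Agent.Lib.MP_fffc5a_co.SliceVar

/-!
The linear part of the indicator function of a family.
-/

set_option autoImplicit false

open Finset

namespace Pool.Agent.Lib.MP_fffc5a_co.T

/-- polarisation of `slice_var` -/
theorem slice_cov {β : Type*} [Fintype β] [DecidableEq β] {k : ℕ} (hk : 1 ≤ k)
    (hN : k + 1 ≤ Fintype.card β) (z w : β → ℝ) (hz : ∑ i, z i = 0) (hw : ∑ i, w i = 0) :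
    ∑ Z ∈ powersetCard k univ, (∑ i ∈ Z, z i) * (∑ i ∈ Z, w i) =
      (Fintype.card β - 2).choose (k - 1) * ∑ i, z i * w i := by
  have h1 := slice_var hk hN z hz
  have h2 := slice_var hk hN w hw
  have h3 := slice_var hk hN (fun i => z i + w i) (by rw [sum_add_distrib, hz, hw, add_zero])
  have h4 : ∑ Z ∈ powersetCard k (univ : Finset β), (∑ i ∈ Z, (z i + w i)) ^ 2 =
      ∑ Z ∈ powersetCard k (univ : Finset β), (∑ i ∈ Z, z i) ^ 2 +
        ∑ Z ∈ powersetCard k (univ : Finset β), (∑ i ∈ Z, w i) ^ 2 +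
        2 * ∑ Z ∈ powersetCard k (univ : Finset β), (∑ i ∈ Z, z i) * (∑ i ∈ Z, w i) := by
    rw [mul_sum, ← sum_add_distrib, ← sum_add_distrib]
    refine sum_congr rfl fun Z _ => ?_
    rw [sum_add_distrib]
    ring
  have h5 : ∑ i, (z i + w i) ^ 2 = ∑ i, z i ^ 2 + ∑ i, w i ^ 2 + 2 * ∑ i, z i * w i := by
    rw [mul_sum, ← sum_add_distrib, ← sum_add_distrib]
    refine sum_congr rfl fun i _ => ?_
    ring
  rw [h4, h5, h1, h2] at h3
  linarith

/-- `proj` (Proj) with `d = 1`, `r = k` gives `ψ`; `(Up^[k-1] ψ) Z = ∑_{i ∈ Z} γ i`,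
`γ i = (k-1)! ψ {i}` (`up_iter_formula`, as in Hoffman), `y i = γ i - (∑ γ)/n`. The remainder
`h Z = ind F Z - ∑_{i ∈ Z} γ i` satisfies `∑_{Z ∋ x} h Z = 0` for all `x`
(`(Dn^[k-1] h) {x} = (k-1)! ∑_{Z ∋ x} h Z`), so `∑_Z h Z = 0`, hence `|F| = C(n-1,k-1) ∑ γ`,
`k (∑ γ)/n = |F|/C(n,k)` (so `dev k F y = nsq k h`),
`#{Z ∈ F : x ∈ Z} = ∑_{Z ∋ x} ∑_{i ∈ Z} γ i`, `∑_Z h Z ∑_{i ∈ Z} y i = 0`; `slice_var`.
Last claim: `hoffman` and `|F| ≥ C(n-1,k-1)`. -/
theorem decomp {β : Type*} [Fintype β] [DecidableEq β] {k a : ℕ} (hk : 2 ≤ k) (ha : 1 ≤ a)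
    (hN : Fintype.card β = 2 * k + a) {F : Finset (Finset β)} (hF : ∀ s ∈ F, s.card = k)
    (hL : (2 * k + a - 1).choose (k - 1) ≤ F.card) :
    ∃ y : β → ℝ, IsLin k F y ∧ ((k + a - 2).choose (a - 1) : ℝ) * dev k F y ≤ dp F F := by
  classical
  obtain ⟨ψ, hh⟩ := proj (d := 1) (r := k) (by omega) (ind F)
  set γ : β → ℝ := fun i => ((k - 1).factorial : ℝ) * ψ {i} with hγ
  set Γ : ℝ := ∑ i, γ i with hΓ
  set P : Finset (Finset β) := powersetCard k univ with hP
  have hPmem : ∀ X, X ∈ P ↔ X.card = k := by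
    intro X
    rw [hP, Finset.mem_powersetCard]
    simp
  have hfac : (0 : ℝ) < (k - 1).factorial := by exact_mod_cast Nat.factorial_pos _
  have hk0 : (0 : ℝ) < k := by exact_mod_cast (by omega : 0 < k)
  have hform : ∀ (χ : Finset β → ℝ) (Z : Finset β), Z.card = k →
      (Up^[k - 1] χ) Z = ∑ i ∈ Z, ((k - 1).factorial : ℝ) * χ {i} := by
    intro χ Z hZ
    rw [up_iter_formula χ (k - 1) 1 Z (by omega), Finset.powersetCard_one, Finset.sum_map,
      Finset.mul_sum]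
    rfl
  set h : Finset β → ℝ := fun Z => ind F Z - (Up^[k - 1] ψ) Z with hhdef
  have hind : ∀ Z ∈ P, ind F Z = ∑ i ∈ Z, γ i + h Z := by
    intro Z hZ
    have h1 := hform ψ Z ((hPmem Z).1 hZ)
    rw [hhdef]
    dsimp only
    rw [h1]
    ring
  have horth : ∀ c : β → ℝ, ∑ Z ∈ P, (∑ i ∈ Z, c i) * h Z = 0 := by
    intro c
    have h1 := orth_of_dn (d := 1) (r := k) (by omega) hh
      (fun J => (∑ i ∈ J, c i) / (k - 1).factorial)
    rw [← h1]
    refine Finset.sum_congr rfl fun Z hZ => ?_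
    rw [hform _ Z ((hPmem Z).1 hZ)]
    congr 1
    refine Finset.sum_congr rfl fun i _ => ?_
    rw [sum_singleton]
    field_simp
  have hone : ∑ Z ∈ P, h Z = 0 := by
    have h1 := horth (fun _ => 1)
    have h2 : ∀ Z ∈ P, (∑ i ∈ Z, (1 : ℝ)) * h Z = k * h Z := by
      intro Z hZ
      rw [sum_const, nsmul_eq_mul, mul_one, (hPmem Z).1 hZ]
    rw [Finset.sum_congr rfl h2, ← mul_sum] at h1
    exact (mul_eq_zero.1 h1).resolve_left hk0.ne'
  set L : ℝ := ((2 * k + a - 1).choose (k - 1) : ℝ) with hLdef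
  have hLpos : 0 < L := by
    rw [hLdef]
    exact_mod_cast Nat.choose_pos (by omega)
  have hcount : ∀ c : β → ℝ, ∑ Z ∈ P, ∑ i ∈ Z, c i = L * ∑ i, c i := by
    intro c
    rw [hP, k10_count (by omega) univ c, Finset.card_univ, hN]
  have hsf : ∑ Z ∈ P, ind F Z = F.card := by
    unfold ind
    rw [← Finset.sum_filter, Finset.sum_const, nsmul_eq_mul, mul_one]
    congr 2
    ext X
    rw [Finset.mem_filter, hPmem]
    exact ⟨fun h => h.2, fun h => ⟨hF X h, h⟩⟩
  have hsf2 : ∑ Z ∈ P, ind F Z ^ 2 = F.card := by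
    rw [← hsf]
    refine Finset.sum_congr rfl (fun Z _ => ?_)
    unfold ind
    split_ifs <;> norm_num
  have hFL : (F.card : ℝ) = L * Γ := by
    rw [← hsf, Finset.sum_congr rfl hind, Finset.sum_add_distrib, hcount, hone, add_zero]
  -- binomial coefficients
  set n : ℝ := (Fintype.card β : ℝ) with hn
  set K : ℝ := ((Fintype.card β).choose k : ℝ) with hK
  have hn0 : 0 < n := by
    rw [hn]
    exact_mod_cast (by omega : 0 < Fintype.card β)
  have hK0 : 0 < K := by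
    rw [hK]
    exact_mod_cast Nat.choose_pos (by omega)
  have hnL : n * L = k * K := by
    obtain ⟨j, rfl⟩ : ∃ j, k = j + 1 := ⟨k - 1, by omega⟩
    have e1 : Fintype.card β = (2 * (j + 1) + a - 1) + 1 := by omega
    have e2 := Nat.add_one_mul_choose_eq (2 * (j + 1) + a - 1) j
    rw [hn, hK, hLdef, e1]
    have e3 : j + 1 - 1 = j := by omega
    rw [e3]
    have e4 : ((((2 * (j + 1) + a - 1 + 1) * (2 * (j + 1) + a - 1).choose j : ℕ)) : ℝ) =
      (((2 * (j + 1) + a - 1 + 1).choose (j + 1) * (j + 1) : ℕ) : ℝ) := by rw [e2]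
    push_cast at e4
    push_cast
    linarith
  set m : ℝ := (F.card : ℝ) / K with hm
  have hmΓ : m = k * Γ / n := by
    rw [hm, div_eq_div_iff hK0.ne' hn0.ne', hFL]
    calc L * Γ * n = n * L * Γ := by ring
      _ = k * K * Γ := by rw [hnL]
      _ = k * Γ * K := by ring
  set y : β → ℝ := fun i => γ i - Γ / n with hy
  have hysum : ∑ i, y i = 0 := by
    rw [hy]
    rw [sum_sub_distrib, sum_const, nsmul_eq_mul, card_univ, ← hn, ← hΓ]
    field_simp
    ring
  have hyZ : ∀ Z ∈ P, ∑ i ∈ Z, γ i = m + ∑ i ∈ Z, y i := by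
    intro Z hZ
    rw [hy]
    dsimp only
    rw [sum_sub_distrib, sum_const, nsmul_eq_mul, (hPmem Z).1 hZ, hmΓ]
    ring
  have hind2 : ∀ Z ∈ P, ind F Z = m + ∑ i ∈ Z, y i + h Z := by
    intro Z hZ
    rw [hind Z hZ, hyZ Z hZ]
  have hdev : dev k F y = ∑ Z ∈ P, h Z ^ 2 := by
    unfold dev
    refine Finset.sum_congr rfl fun Z hZ => ?_
    rw [hind2 Z hZ, ← hK, ← hm]
    congr 1
    ring
  have hyL : ∑ Z ∈ P, ∑ i ∈ Z, y i = 0 := by
    rw [hcount, hysum, mul_zero]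
  have hvar := slice_var (k := k) (by omega) (by omega) y hysum
  rw [← hP] at hvar
  have hcardP : (P.card : ℝ) = K := by
    rw [hP, card_powersetCard, card_univ]
  -- products with the indicator function
  have hprod : ∀ c : β → ℝ, ∑ Z ∈ P, (∑ i ∈ Z, c i) * ind F Z =
      m * (L * ∑ i, c i) + ∑ Z ∈ P, (∑ i ∈ Z, c i) * (∑ i ∈ Z, y i) := by
    intro c
    have h1 : ∀ Z ∈ P, (∑ i ∈ Z, c i) * ind F Z = m * (∑ i ∈ Z, c i) +
        (∑ i ∈ Z, c i) * (∑ i ∈ Z, y i) + (∑ i ∈ Z, c i) * h Z := by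
      intro Z hZ
      rw [hind2 Z hZ]
      ring
    rw [Finset.sum_congr rfl h1, sum_add_distrib, sum_add_distrib, horth, ← mul_sum, hcount,
      add_zero]
  have hcov : ∀ c : β → ℝ, ∑ Z ∈ P, (∑ i ∈ Z, c i) * (∑ i ∈ Z, y i) =
      ((Fintype.card β - 2).choose (k - 1) : ℝ) * ∑ i, c i * y i := by
    intro c
    set s : ℝ := (∑ i, c i) / n with hs
    have h1 : ∑ i, (c i - s) = 0 := by
      rw [sum_sub_distrib, sum_const, nsmul_eq_mul, card_univ, ← hn, hs]
      field_simp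
      ring
    have h2 := slice_cov (k := k) (by omega) (by omega) (fun i => c i - s) y h1 hysum
    rw [← hP] at h2
    have h3 : ∀ Z ∈ P, (∑ i ∈ Z, c i) * (∑ i ∈ Z, y i) =
        (∑ i ∈ Z, (c i - s)) * (∑ i ∈ Z, y i) + (k * s) * ∑ i ∈ Z, y i := by
      intro Z hZ
      have h9 : ∑ i ∈ Z, (c i - s) = ∑ i ∈ Z, c i - k * s := by
        rw [sum_sub_distrib, sum_const, nsmul_eq_mul, (hPmem Z).1 hZ]
      rw [h9]
      ring
    rw [Finset.sum_congr rfl h3, sum_add_distrib, h2, ← mul_sum, hyL, mul_zero, add_zero]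
    congr 1
    have h4 : ∀ i ∈ (univ : Finset β), (c i - s) * y i = c i * y i - s * y i := by
      intro i _
      ring
    rw [Finset.sum_congr rfl h4, sum_sub_distrib, ← mul_sum, hysum]
    ring
  refine ⟨y, ⟨hysum, fun x => ?_, ?_, ?_⟩, ?_⟩
  · -- degrees
    have h1 : ((F.filter fun s => x ∈ s).card : ℝ) =
        ∑ Z ∈ P, (∑ i ∈ Z, if i = x then (1 : ℝ) else 0) * ind F Z := by
      have h2 : ∀ Z ∈ P, (∑ i ∈ Z, if i = x then (1 : ℝ) else 0) * ind F Z =
          if Z ∈ F ∧ x ∈ Z then 1 else 0 := by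
        intro Z _
        rw [Finset.sum_ite_eq' Z x (fun _ => (1 : ℝ))]
        unfold ind
        by_cases h3 : x ∈ Z
        · by_cases h4 : Z ∈ F
          · rw [if_pos h3, if_pos h4, if_pos ⟨h4, h3⟩, one_mul]
          · rw [if_neg h4, mul_zero, if_neg (fun h => h4 h.1)]
        · rw [if_neg h3, zero_mul, if_neg (fun h => h3 h.2)]
      rw [Finset.sum_congr rfl h2, ← Finset.sum_filter, Finset.sum_const, nsmul_eq_mul, mul_one]
      congr 2
      ext Z
      rw [Finset.mem_filter, Finset.mem_filter, hPmem]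
      exact ⟨fun h => ⟨hF Z h.1, h⟩, fun h => h.2⟩
    have h5 : ∑ i : β, (if i = x then (1 : ℝ) else 0) = 1 := by
      rw [Finset.sum_ite_eq' univ x (fun _ => (1 : ℝ)), if_pos (mem_univ x)]
    have h6 : ∑ i : β, (if i = x then (1 : ℝ) else 0) * y i = y x := by
      have h7 : ∀ i ∈ (univ : Finset β), (if i = x then (1 : ℝ) else 0) * y i =
          if i = x then y i else 0 := by
        intro i _
        split_ifs <;> ring
      rw [Finset.sum_congr rfl h7, Finset.sum_ite_eq' univ x y, if_pos (mem_univ x)]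
    have h8 : ((Fintype.card β - 1).choose (k - 1) : ℝ) = L := by rw [hLdef, hN]
    rw [h1, hprod, hcov, h5, h6, mul_one, h8, ← hK, ← hm]
    ring
  · -- variance
    have h1 : ∀ Z ∈ P, ind F Z ^ 2 = m ^ 2 + (∑ i ∈ Z, y i) ^ 2 + h Z ^ 2 +
        (2 * m * ∑ i ∈ Z, y i + (2 * m * h Z + 2 * ((∑ i ∈ Z, y i) * h Z))) := by
      intro Z hZ
      rw [hind2 Z hZ]
      ring
    have h3 := hsf2
    rw [Finset.sum_congr rfl h1, sum_add_distrib, sum_add_distrib, sum_add_distrib,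
      sum_add_distrib, sum_add_distrib, ← mul_sum, ← mul_sum, ← mul_sum, hyL, hone, horth,
      sum_const, nsmul_eq_mul, hcardP] at h3
    have h2 : (F.card : ℝ) ^ 2 / K = K * m ^ 2 := by
      rw [hm]
      field_simp
    rw [hdev, ← hvar, ← hK, h2]
    linarith
  · -- inner product
    have h1 : ∑ Z ∈ F, ∑ i ∈ Z, y i = ∑ Z ∈ P, (∑ i ∈ Z, y i) * ind F Z := by
      have h2 : ∀ Z ∈ P, (∑ i ∈ Z, y i) * ind F Z = if Z ∈ F then ∑ i ∈ Z, y i else 0 := by
        intro Z _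
        unfold ind
        split_ifs <;> ring
      rw [Finset.sum_congr rfl h2, ← Finset.sum_filter]
      refine Finset.sum_congr ?_ (fun _ _ => rfl)
      ext Z
      rw [Finset.mem_filter, hPmem]
      exact ⟨fun h => ⟨hF Z h, h⟩, fun h => h.2⟩
    rw [h1, hprod, hcov, hysum, mul_zero, mul_zero, zero_add]
    congr 1
    refine Finset.sum_congr rfl fun i _ => ?_
    ring
  · -- the number of disjoint pairs
    have h1 := hoffman hk ha hN hF hh
    have h2 : nsq k (fun Z => ind F Z - (Up^[k - 1] ψ) Z) = dev k F y := by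
      rw [hdev]
      rfl
    rw [h2, ← hLdef] at h1
    have h3 : 0 ≤ (F.card : ℝ) ^ 2 / L - F.card := by
      have h4 : L ≤ F.card := by
        rw [hLdef]
        exact_mod_cast hL
      have h5 : (F.card : ℝ) ≤ (F.card : ℝ) ^ 2 / L := by
        rw [le_div_iff₀ hLpos, sq]
        exact mul_le_mul_of_nonneg_left h4 (Nat.cast_nonneg _)
      linarith
    have h6 : 0 ≤ ((k + a - 1).choose a : ℝ) * ((F.card : ℝ) ^ 2 / L - F.card) :=
      mul_nonneg (Nat.cast_nonneg _) h3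
    linarith

end Pool.Agent.Lib.MP_fffc5a_co.T
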