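import Mathlib
import Pool.Agent.Lib.MP_fffc5a_co.T.Defs
import Pool.Agent.Lib.MP_fffc5a_co.PermTwo

/-!
Sums over all permutations of a function of the images of four different points.
-/

set_option autoImplicit false

open Finset

namespace Pool.Agent.Lib.MP_fffc5a_co.T

/-- a permutation with four given values -/
theorem PermFour_exists {β : Type*} [Fintype β] [DecidableEq β] {i j k l : β} (hij : i ≠ j)
    (hik : i ≠ k) (hil : i ≠ l) (hjk : j ≠ k) (hjl : j ≠ l) (hkl : k ≠ l) (a b c d : β)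
    (hab : a ≠ b) (hac : a ≠ c) (had : a ≠ d) (hbc : b ≠ c) (hbd : b ≠ d) (hcd : c ≠ d) :
    ∃ τ : Equiv.Perm β, τ i = a ∧ τ j = b ∧ τ k = c ∧ τ l = d := by
  have hf : Function.Injective (![i, j, k, l] : Fin 4 → β) := by
    intro s t hst
    fin_cases s <;> fin_cases t <;> simp_all
  have hg : Function.Injective (![a, b, c, d] : Fin 4 → β) := by
    intro s t hst
    fin_cases s <;> fin_cases t <;> simp_all
  let e : {x // x ∈ Set.range (![i, j, k, l] : Fin 4 → β)} ≃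
      {x // x ∈ Set.range (![a, b, c, d] : Fin 4 → β)} :=
    (Equiv.ofInjective _ hf).symm.trans (Equiv.ofInjective _ hg)
  have key : ∀ t : Fin 4, e.extendSubtype ((![i, j, k, l] : Fin 4 → β) t) =
      (![a, b, c, d] : Fin 4 → β) t := by
    intro t
    rw [e.extendSubtype_apply_of_mem _ ⟨t, rfl⟩]
    have h1 : (⟨(![i, j, k, l] : Fin 4 → β) t, ⟨t, rfl⟩⟩ :
        {x // x ∈ Set.range (![i, j, k, l] : Fin 4 → β)}) = Equiv.ofInjective _ hf t := rfl
    rw [h1]
    simp [e]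
  exact ⟨e.extendSubtype, key 0, key 1, key 2, key 3⟩

theorem PermFour_fiber {β : Type*} [Fintype β] [DecidableEq β] {i j k l : β} (hij : i ≠ j)
    (hik : i ≠ k) (hil : i ≠ l) (hjk : j ≠ k) (hjl : j ≠ l) (hkl : k ≠ l) (a b c d : β)
    (hab : a ≠ b) (hac : a ≠ c) (had : a ≠ d) (hbc : b ≠ c) (hbd : b ≠ d) (hcd : c ≠ d) :
    (univ.filter (fun σ : Equiv.Perm β => (σ i, σ j, σ k, σ l) = (a, b, c, d))).card =
      (univ.filter (fun σ : Equiv.Perm β => σ i = i ∧ σ j = j ∧ σ k = k ∧ σ l = l)).card := by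
  obtain ⟨τ, h1, h2, h3, h4⟩ := PermFour_exists hij hik hil hjk hjl hkl a b c d hab hac had hbc
    hbd hcd
  symm
  refine Finset.card_equiv (Equiv.mulLeft τ) fun σ => ?_
  simp only [mem_filter, mem_univ, true_and, Equiv.coe_mulLeft, Equiv.Perm.mul_apply,
    Prod.mk.injEq]
  constructor
  · rintro ⟨g1, g2, g3, g4⟩
    rw [g1, g2, g3, g4]
    exact ⟨h1, h2, h3, h4⟩
  · rintro ⟨g1, g2, g3, g4⟩
    exact ⟨τ.injective (by rw [g1, h1]), τ.injective (by rw [g2, h2]),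
      τ.injective (by rw [g3, h3]), τ.injective (by rw [g4, h4])⟩

/-- four different entries -/
def Dst {β : Type*} (p : β × β × β × β) : Prop :=
  p.1 ≠ p.2.1 ∧ p.1 ≠ p.2.2.1 ∧ p.1 ≠ p.2.2.2 ∧ p.2.1 ≠ p.2.2.1 ∧ p.2.1 ≠ p.2.2.2 ∧
    p.2.2.1 ≠ p.2.2.2

instance {β : Type*} [DecidableEq β] (p : β × β × β × β) : Decidable (Dst p) := by
  unfold Dst
  infer_instance

theorem PermFour_sum {β : Type*} [Fintype β] [DecidableEq β] {i j k l : β} (hij : i ≠ j)
    (hik : i ≠ k) (hil : i ≠ l) (hjk : j ≠ k) (hjl : j ≠ l) (hkl : k ≠ l)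
    (g : β × β × β × β → ℝ) : ∑ σ : Equiv.Perm β, g (σ i, σ j, σ k, σ l) =
      (univ.filter (fun σ : Equiv.Perm β => σ i = i ∧ σ j = j ∧ σ k = k ∧ σ l = l)).card *
        ∑ p : β × β × β × β, (if Dst p then g p else 0) := by
  rw [← Finset.sum_fiberwise univ (fun σ : Equiv.Perm β => (σ i, σ j, σ k, σ l)), mul_sum]
  refine sum_congr rfl fun p _ => ?_
  have h1 : ∑ σ ∈ univ.filter (fun σ : Equiv.Perm β => (σ i, σ j, σ k, σ l) = p),
      g (σ i, σ j, σ k, σ l) =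
      ∑ σ ∈ univ.filter (fun σ : Equiv.Perm β => (σ i, σ j, σ k, σ l) = p), g p := by
    refine sum_congr rfl fun σ hσ => ?_
    rw [mem_filter] at hσ
    rw [hσ.2]
  rw [h1, sum_const, nsmul_eq_mul]
  split_ifs with h
  · obtain ⟨q1, q2, q3, q4, q5, q6⟩ := h
    rw [← PermFour_fiber hij hik hil hjk hjl hkl p.1 p.2.1 p.2.2.1 p.2.2.2 q1 q2 q3 q4 q5 q6]
  · have h2 : univ.filter (fun σ : Equiv.Perm β => (σ i, σ j, σ k, σ l) = p) = ∅ := by
      rw [filter_eq_empty_iff]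
      intro σ _ h3
      refine h ?_
      rw [← h3]
      exact ⟨fun h => hij (σ.injective h), fun h => hik (σ.injective h),
        fun h => hil (σ.injective h), fun h => hjk (σ.injective h),
        fun h => hjl (σ.injective h), fun h => hkl (σ.injective h)⟩
    rw [h2]
    simp

theorem PermFour_card {β : Type*} [Fintype β] [DecidableEq β] {i j k l : β} (hij : i ≠ j)
    (hik : i ≠ k) (hil : i ≠ l) (hjk : j ≠ k) (hjl : j ≠ l) (hkl : k ≠ l) :
    (univ.filter (fun σ : Equiv.Perm β => σ i = i ∧ σ j = j ∧ σ k = k ∧ σ l = l)).card =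
      (Fintype.card β - 4).factorial := by
  have h1 : (univ.filter (fun σ : Equiv.Perm β => σ i = i ∧ σ j = j ∧ σ k = k ∧ σ l = l)).card =
      Fintype.card {f : Equiv.Perm β // ∀ a, ¬ (a ∉ ({i, j, k, l} : Finset β)) → f a = a} := by
    rw [Fintype.card_subtype]
    congr 1
    ext σ
    simp only [mem_filter, mem_univ, true_and, not_not, mem_insert, mem_singleton,
      forall_eq_or_imp, forall_eq]
  rw [h1, Fintype.card_congr (Equiv.Perm.subtypeEquivSubtypePerm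
    (fun a => a ∉ ({i, j, k, l} : Finset β))).symm, Fintype.card_perm]
  congr 1
  rw [Fintype.card_subtype_compl, Fintype.card_coe]
  congr 1
  rw [card_insert_of_notMem, card_insert_of_notMem, card_pair hkl]
  · simp only [mem_insert, mem_singleton, not_or]
    exact ⟨hjk, hjl⟩
  · simp only [mem_insert, mem_singleton, not_or]
    exact ⟨hij, hik, hil⟩

theorem PermFour_ind {β : Type*} [DecidableEq β] (y : β → ℝ) (a b c d : β) :
    (if Dst (a, b, c, d) then (y a - y b) ^ 2 * (y c - y d) ^ 2 else 0) =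
      (y a - y b) ^ 2 * (y c - y d) ^ 2 -
      (if a = c then (y a - y b) ^ 2 * (y c - y d) ^ 2 else 0) -
      (if a = d then (y a - y b) ^ 2 * (y c - y d) ^ 2 else 0) -
      (if b = c then (y a - y b) ^ 2 * (y c - y d) ^ 2 else 0) -
      (if b = d then (y a - y b) ^ 2 * (y c - y d) ^ 2 else 0) +
      (if a = c then if b = d then (y a - y b) ^ 2 * (y c - y d) ^ 2 else 0 else 0) +
      (if a = d then if b = c then (y a - y b) ^ 2 * (y c - y d) ^ 2 else 0 else 0) := by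
  by_cases hab : a = b
  · subst hab
    simp
  by_cases hcd : c = d
  · subst hcd
    simp
  by_cases hac : a = c
  · subst hac
    have had : ¬ a = d := hcd
    have hba : ¬ b = a := fun h => hab h.symm
    by_cases hbd : b = d
    · subst hbd
      simp [Dst, hab, hba]
    · simp [Dst, had, hba, hbd]
  by_cases had : a = d
  · subst had
    have hba : ¬ b = a := fun h => hab h.symm
    by_cases hbc : b = c
    · subst hbc
      simp [Dst, hab, hba]
    · simp [Dst, hac, hba, hbc]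
  by_cases hbc : b = c
  · subst hbc
    simp [Dst, hac, had, hcd]
  by_cases hbd : b = d
  · subst hbd
    simp [Dst, hac, had, hbc]
  simp [Dst, hab, hac, had, hbc, hbd, hcd]

/-- As `perm_two_sq` in PermTwo (fibres of `σ ↦ (σ i, σ j, σ k, σ l)` over the injective quadruples
all have the same size, hence `(n-4)!`, by taking the constant function 1). The sum over the
quadruples with different entries of `G = (y a - y b)² (y c - y d)²`: for `a ≠ b`, `c ≠ d`
(otherwise `G = 0`) the indicator function of `{a,b} ∩ {c,d} = ∅` is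
`1 - [a=c] - [a=d] - [b=c] - [b=d] + [a=c][b=d] + [a=d][b=c]`, so the sum is
`(∑_{a,b} (y a - y b)²)² - 4 ∑_a (∑_b (y a - y b)²)² + 2 ∑_{a,b} (y a - y b)⁴`
`= (2 n Y)² - 4 (n² Q + 3 n Y²) + 2 (2 n Q + 6 Y²)`. -/
theorem perm_four {β : Type*} [Fintype β] [DecidableEq β] (y : β → ℝ) (hy : ∑ i, y i = 0)
    {i j k l : β} (hij : i ≠ j) (hik : i ≠ k) (hil : i ≠ l) (hjk : j ≠ k) (hjl : j ≠ l)
    (hkl : k ≠ l) :
    ∑ σ : Equiv.Perm β, (y (σ i) - y (σ j)) ^ 2 * (y (σ k) - y (σ l)) ^ 2 =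
      ((Fintype.card β - 4).factorial : ℝ) *
        (4 * (((Fintype.card β : ℝ) ^ 2 - 3 * Fintype.card β + 3) * (∑ i, y i ^ 2) ^ 2 -
          (Fintype.card β : ℝ) * ((Fintype.card β : ℝ) - 1) * ∑ i, y i ^ 4)) := by
  have h := PermFour_sum hij hik hil hjk hjl hkl
    (fun p => (y p.1 - y p.2.1) ^ 2 * (y p.2.2.1 - y p.2.2.2) ^ 2)
  rw [PermFour_card hij hik hil hjk hjl hkl] at h
  simp only at h
  rw [h]
  congr 1
  rw [Fintype.sum_prod_type]
  simp only [Fintype.sum_prod_type]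
  simp only [PermFour_ind]
  simp only [sum_add_distrib, sum_sub_distrib]
  have hd : ∀ a, ∑ b, (y a - y b) ^ 2 = Fintype.card β * y a ^ 2 + ∑ i, y i ^ 2 := by
    intro a
    have h1 : ∀ b, (y a - y b) ^ 2 = y a ^ 2 - 2 * y a * y b + y b ^ 2 := fun b => by ring
    simp only [h1, sum_add_distrib, sum_sub_distrib, ← mul_sum, hy, sum_const, card_univ,
      nsmul_eq_mul, mul_zero, sub_zero]
  have hd' : ∀ a, ∑ b, (y b - y a) ^ 2 = Fintype.card β * y a ^ 2 + ∑ i, y i ^ 2 := by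
    intro a
    rw [← hd a]
    exact sum_congr rfl fun b _ => by ring
  have hq : ∑ a, (Fintype.card β * y a ^ 2 + ∑ i, y i ^ 2) *
      (Fintype.card β * y a ^ 2 + ∑ i, y i ^ 2) =
      (Fintype.card β : ℝ) ^ 2 * ∑ i, y i ^ 4 + 3 * Fintype.card β * (∑ i, y i ^ 2) ^ 2 := by
    have h1 : ∀ a, (Fintype.card β * y a ^ 2 + ∑ i, y i ^ 2) *
        (Fintype.card β * y a ^ 2 + ∑ i, y i ^ 2) = (Fintype.card β : ℝ) ^ 2 * y a ^ 4 +
          (2 * Fintype.card β * ∑ i, y i ^ 2) * y a ^ 2 + (∑ i, y i ^ 2) ^ 2 := fun a => by ring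
    simp only [h1, sum_add_distrib, ← mul_sum, sum_const, card_univ, nsmul_eq_mul]
    ring
  have h4 : ∑ a, ∑ b, (y a - y b) ^ 4 =
      2 * Fintype.card β * ∑ i, y i ^ 4 + 6 * (∑ i, y i ^ 2) ^ 2 := by
    have h1 : ∀ a b, (y a - y b) ^ 4 = y a ^ 4 - (4 * y a ^ 3) * y b + (6 * y a ^ 2) * y b ^ 2
        - (y a) * (4 * y b ^ 3) + y b ^ 4 := fun a b => by ring
    simp only [h1, sum_add_distrib, sum_sub_distrib, ← mul_sum, ← sum_mul, hy, sum_const,
      card_univ, nsmul_eq_mul, mul_zero, zero_mul, sub_zero]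
    ring
  -- the seven sums
  have e0 : ∑ a, ∑ b, ∑ c, ∑ d, (y a - y b) ^ 2 * (y c - y d) ^ 2 =
      (2 * Fintype.card β * ∑ i, y i ^ 2) * (2 * Fintype.card β * ∑ i, y i ^ 2) := by
    have h1 : ∑ a, ∑ b, (y a - y b) ^ 2 = 2 * Fintype.card β * ∑ i, y i ^ 2 := by
      simp only [hd, sum_add_distrib, ← mul_sum, sum_const, card_univ, nsmul_eq_mul]
      ring
    simp only [← mul_sum, h1, ← sum_mul]
  have e1 : ∑ a, ∑ b, ∑ c, ∑ d, (if a = c then (y a - y b) ^ 2 * (y c - y d) ^ 2 else 0) =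
      (Fintype.card β : ℝ) ^ 2 * ∑ i, y i ^ 4 + 3 * Fintype.card β * (∑ i, y i ^ 2) ^ 2 := by
    rw [← hq]
    refine sum_congr rfl fun a _ => ?_
    have h1 : ∀ b, ∑ c, ∑ d, (if a = c then (y a - y b) ^ 2 * (y c - y d) ^ 2 else 0) =
        (y a - y b) ^ 2 * (Fintype.card β * y a ^ 2 + ∑ i, y i ^ 2) := by
      intro b
      rw [sum_comm]
      simp only [sum_ite_eq, mem_univ, if_true, ← mul_sum, hd]
    simp only [h1, ← sum_mul, hd]
  have e2 : ∑ a, ∑ b, ∑ c, ∑ d, (if a = d then (y a - y b) ^ 2 * (y c - y d) ^ 2 else 0) =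
      (Fintype.card β : ℝ) ^ 2 * ∑ i, y i ^ 4 + 3 * Fintype.card β * (∑ i, y i ^ 2) ^ 2 := by
    rw [← hq]
    refine sum_congr rfl fun a _ => ?_
    simp only [sum_ite_eq, mem_univ, if_true, ← mul_sum, hd', ← sum_mul, hd]
  have e3 : ∑ a, ∑ b, ∑ c, ∑ d, (if b = c then (y a - y b) ^ 2 * (y c - y d) ^ 2 else 0) =
      (Fintype.card β : ℝ) ^ 2 * ∑ i, y i ^ 4 + 3 * Fintype.card β * (∑ i, y i ^ 2) ^ 2 := by
    rw [← hq, sum_comm]
    refine sum_congr rfl fun b _ => ?_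
    have h1 : ∀ a, ∑ c, ∑ d, (if b = c then (y a - y b) ^ 2 * (y c - y d) ^ 2 else 0) =
        (y a - y b) ^ 2 * (Fintype.card β * y b ^ 2 + ∑ i, y i ^ 2) := by
      intro a
      rw [sum_comm]
      simp only [sum_ite_eq, mem_univ, if_true, ← mul_sum, hd]
    simp only [h1, ← sum_mul, hd']
  have e4 : ∑ a, ∑ b, ∑ c, ∑ d, (if b = d then (y a - y b) ^ 2 * (y c - y d) ^ 2 else 0) =
      (Fintype.card β : ℝ) ^ 2 * ∑ i, y i ^ 4 + 3 * Fintype.card β * (∑ i, y i ^ 2) ^ 2 := by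
    rw [← hq, sum_comm]
    refine sum_congr rfl fun b _ => ?_
    simp only [sum_ite_eq, mem_univ, if_true, ← mul_sum, hd', ← sum_mul]
  have e5 : ∑ a, ∑ b, ∑ c, ∑ d, (if a = c then if b = d then
      (y a - y b) ^ 2 * (y c - y d) ^ 2 else 0 else 0) =
      2 * Fintype.card β * ∑ i, y i ^ 4 + 6 * (∑ i, y i ^ 2) ^ 2 := by
    rw [← h4]
    refine sum_congr rfl fun a _ => sum_congr rfl fun b _ => ?_
    rw [sum_comm]
    simp only [sum_ite_eq, mem_univ, if_true]
    ring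
  have e6 : ∑ a, ∑ b, ∑ c, ∑ d, (if a = d then if b = c then
      (y a - y b) ^ 2 * (y c - y d) ^ 2 else 0 else 0) =
      2 * Fintype.card β * ∑ i, y i ^ 4 + 6 * (∑ i, y i ^ 2) ^ 2 := by
    rw [← h4]
    refine sum_congr rfl fun a _ => sum_congr rfl fun b _ => ?_
    simp only [sum_ite_eq, mem_univ, if_true]
    ring
  rw [e0, e1, e2, e3, e4, e5, e6]
  ring

end Pool.Agent.Lib.MP_fffc5a_co.T
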