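import Mathlib
import Pool.Agent.Lib.MP_fffc5a_co.T.PermFour
import Pool.Agent.Lib.MP_fffc5a_co.FknIneq

/-!
The Friedgut-Kalai-Naor inequality on the slice, for all `n ≥ 2k+1`.
-/

set_option autoImplicit false

open Finset

namespace Pool.Agent.Lib.MP_fffc5a_co.T

/-- the square of a sum minus the diagonal -/
theorem sq_sum_sub_diag {k : ℕ} (b : Fin k → ℝ) :
    (∑ p, b p ^ 2) ^ 2 - ∑ p, b p ^ 4 =
      ∑ p, ∑ q, if p = q then 0 else b p ^ 2 * b q ^ 2 := by
  have h1 : ∀ p : Fin k, ∑ q, (if p = q then 0 else b p ^ 2 * b q ^ 2) =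
      b p ^ 2 * (∑ q, b q ^ 2) - b p ^ 4 := by
    intro p
    have h2 : ∀ q : Fin k, (if p = q then 0 else b p ^ 2 * b q ^ 2) =
        b p ^ 2 * b q ^ 2 - (if p = q then b p ^ 2 * b q ^ 2 else 0) := by
      intro q
      split_ifs <;> ring
    simp only [h2]
    rw [Finset.sum_sub_distrib, Finset.sum_ite_eq, if_pos (Finset.mem_univ p), Finset.mul_sum]
    ring
  simp only [h1]
  rw [Finset.sum_sub_distrib, ← Finset.sum_mul]
  ring

/-- As `fkn_ineq` (FknIneq), without Cauchy-Schwarz: in the inequality `hcube` on every cube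
`(∑ b²)² - ∑ b⁴ = ∑_{p ≠ q} b_p² b_q²`, and the sum over the permutations is exact by `perm_four`
(`b_p² b_q² = (…)² (…)² / 16`). -/
theorem fkn_four {β : Type*} [Fintype β] [DecidableEq β] {n k : ℕ} (hk : 2 ≤ k)
    (hn : 2 * k + 1 ≤ n) (hN : Fintype.card β = n) (F : Finset (Finset β)) (c : ℝ) {y : β → ℝ}
    (hy : ∑ i, y i = 0) (hY : ∑ i, y i ^ 2 ≤ 18) :
    (k : ℝ) * (k - 1) * (((n : ℝ) ^ 2 - 3 * n + 3) * (∑ i, y i ^ 2) ^ 2 -
        (n : ℝ) * (n - 1) * ∑ i, y i ^ 4) ≤
      648 * ((n : ℝ) * (n - 1) * (n - 2) * (n - 3)) *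
        ((∑ Z ∈ powersetCard k univ, (ind F Z - c - ∑ i ∈ Z, y i) ^ 2) / (n.choose k : ℝ)) := by
  classical
  -- the injection
  obtain ⟨e, he⟩ : ∃ e : Fin k × Bool → β, Function.Injective e := by
    have h1 : Fintype.card (Fin k × Bool) ≤ Fintype.card β := by
      rw [Fintype.card_prod, Fintype.card_fin, Fintype.card_bool, hN]
      omega
    obtain ⟨f⟩ := Function.Embedding.nonempty_of_card_le h1
    exact ⟨f, f.injective⟩
  set Y : ℝ := ∑ i, y i ^ 2 with hYdef
  set Y4 : ℝ := ∑ i, y i ^ 4 with hY4def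
  set G : Finset β → ℝ := fun Z => (ind F Z - c - ∑ i ∈ Z, y i) ^ 2 with hG
  set SG : ℝ := ∑ Z ∈ powersetCard k univ, G Z with hSG
  have hinj : ∀ σ : Equiv.Perm β, Function.Injective (fun q => σ (e q)) :=
    fun σ a b hab => he (σ.injective hab)
  set B : ℝ := ((n : ℝ) ^ 2 - 3 * n + 3) * Y ^ 2 - (n : ℝ) * (n - 1) * Y4 with hB
  -- the inequality on every cube
  have hcube : ∀ σ : Equiv.Perm β,
      2 ^ k * (∑ p, ∑ q, if p = q then 0 else
        k14_b y (fun q => σ (e q)) p ^ 2 * k14_b y (fun q => σ (e q)) q ^ 2) ≤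
      162 * ∑ δ : Fin k → Bool, G (cset (fun q => σ (e q)) δ) := by
    intro σ
    have h1 := fkn_cube (m := k) (f := fun δ => ind F (cset (fun q => σ (e q)) δ))
      (fun δ => by
        unfold ind
        split_ifs
        · exact Or.inr rfl
        · exact Or.inl rfl)
      (c + ∑ p, k14_s y (fun q => σ (e q)) p) (k14_b y (fun q => σ (e q)))
      ((k14_bsq y (hinj σ)).trans (by linarith))
    rw [← sq_sum_sub_diag]
    refine h1.trans (le_of_eq ?_)
    congr 1
    refine Finset.sum_congr rfl (fun δ _ => ?_)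
    rw [hG]
    simp only
    rw [k14_sum_cset y (hinj σ) δ]
    ring
  -- the sum over the permutations
  have hs : ∑ σ : Equiv.Perm β, (∑ p : Fin k, ∑ q : Fin k, if p = q then (0 : ℝ) else
        k14_b y (fun q => σ (e q)) p ^ 2 * k14_b y (fun q => σ (e q)) q ^ 2) =
      k * (k - 1) * ((n - 4).factorial * B / 4) := by
    rw [Finset.sum_comm]
    have h1 : ∀ p : Fin k, ∑ σ : Equiv.Perm β, (∑ q : Fin k, if p = q then (0 : ℝ) else
        k14_b y (fun q => σ (e q)) p ^ 2 * k14_b y (fun q => σ (e q)) q ^ 2) =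
        (k - 1) * ((n - 4).factorial * B / 4) := by
      intro p
      rw [Finset.sum_comm]
      have h2 : ∀ q : Fin k, ∑ σ : Equiv.Perm β, (if p = q then (0 : ℝ) else
          k14_b y (fun q => σ (e q)) p ^ 2 * k14_b y (fun q => σ (e q)) q ^ 2) =
          (n - 4).factorial * B / 4 - (if p = q then (n - 4).factorial * B / 4 else 0) := by
        intro q
        by_cases hpq : p = q
        · simp [hpq]
        · simp only [if_neg hpq]
          have hne : ∀ b c : Bool, e (p, b) ≠ e (q, c) := by
            intro b c h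
            exact hpq (Prod.ext_iff.1 (he h)).1
          have hpp : e (p, true) ≠ e (p, false) := by
            intro h
            have := he h
            simp at this
          have hqq : e (q, true) ≠ e (q, false) := by
            intro h
            have := he h
            simp at this
          have h3 := perm_four y hy hpp (hne true true) (hne true false) (hne false true)
            (hne false false) hqq
          rw [hN] at h3
          have h4 : ∑ σ : Equiv.Perm β,
              k14_b y (fun q => σ (e q)) p ^ 2 * k14_b y (fun q => σ (e q)) q ^ 2 =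
              (∑ σ : Equiv.Perm β, (y (σ (e (p, true))) - y (σ (e (p, false)))) ^ 2 *
                (y (σ (e (q, true))) - y (σ (e (q, false)))) ^ 2) / 16 := by
            rw [Finset.sum_div]
            refine Finset.sum_congr rfl (fun σ _ => ?_)
            unfold k14_b
            ring
          rw [h4, h3, hB]
          ring
      simp only [h2]
      rw [Finset.sum_sub_distrib, Finset.sum_ite_eq, if_pos (Finset.mem_univ p),
        Finset.sum_const, Finset.card_univ, Fintype.card_fin, nsmul_eq_mul]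
      ring
    simp only [h1]
    rw [Finset.sum_const, Finset.card_univ, Fintype.card_fin, nsmul_eq_mul]
    ring
  have hsG : ∑ σ : Equiv.Perm β, ∑ δ : Fin k → Bool, G (cset (fun q => σ (e q)) δ) =
      2 ^ k * (k.factorial * (n - k).factorial * SG) := by
    rw [Finset.sum_comm]
    simp only [cube_single he G]
    rw [Finset.sum_const, Finset.card_univ, nsmul_eq_mul, Fintype.card_fun, Fintype.card_bool,
      Fintype.card_fin, hN]
    push_cast
    ring
  -- summed inequality
  have hsum : (k : ℝ) * (k - 1) * ((n - 4).factorial * B / 4) ≤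
      162 * (k.factorial * (n - k).factorial * SG) := by
    have h1 := Finset.sum_le_sum (fun σ (_ : σ ∈ (univ : Finset (Equiv.Perm β))) => hcube σ)
    rw [← Finset.mul_sum, ← Finset.mul_sum, hs, hsG] at h1
    have h2 : (0 : ℝ) < 2 ^ k := by positivity
    have h3 : (2 : ℝ) ^ k * ((k : ℝ) * (k - 1) * ((n - 4).factorial * B / 4)) ≤
        2 ^ k * (162 * (k.factorial * (n - k).factorial * SG)) := by
      calc _ ≤ _ := h1
        _ = _ := by ring
    exact le_of_mul_le_mul_left h3 h2
  have hfac : (n.factorial : ℝ) = n * (n - 1) * (n - 2) * (n - 3) * (n - 4).factorial := by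
    obtain ⟨m, hm⟩ : ∃ m, n = m + 4 := ⟨n - 4, by omega⟩
    rw [hm]
    have : m + 4 - 4 = m := by omega
    rw [this, Nat.factorial_succ, Nat.factorial_succ, Nat.factorial_succ, Nat.factorial_succ]
    push_cast
    ring
  have hf4 : (0 : ℝ) < (n - 4).factorial := by exact_mod_cast Nat.factorial_pos _
  have hch : (k.factorial : ℝ) * (n - k).factorial * (n.choose k : ℝ) = n.factorial := by
    have h1 := Nat.choose_mul_factorial_mul_factorial (n := n) (k := k) (by omega)
    rw [← h1]
    push_cast
    ring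
  have hchpos : (0 : ℝ) < (n.choose k : ℝ) := by
    exact_mod_cast Nat.choose_pos (by omega)
  have h8 : (k.factorial : ℝ) * (n - k).factorial * SG =
      n * (n - 1) * (n - 2) * (n - 3) * (n - 4).factorial * (SG / (n.choose k : ℝ)) := by
    rw [← hfac, ← hch]
    field_simp
  rw [h8] at hsum
  have h9 : ((n - 4).factorial : ℝ) * ((k : ℝ) * (k - 1) * B) ≤
      (n - 4).factorial *
        (648 * ((n : ℝ) * (n - 1) * (n - 2) * (n - 3)) * (SG / (n.choose k : ℝ))) := by
    nlinarith [hsum]
  exact le_of_mul_le_mul_left h9 hf4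

end Pool.Agent.Lib.MP_fffc5a_co.T
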