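import Mathlib
import Pool.Agent.Lib.MP_fffc5a_co.T.FknFour

/-!
A heavy point, `n ≤ 32 k`.
-/

set_option autoImplicit false

open Finset

namespace Pool.Agent.Lib.MP_fffc5a_co.T

/-- the normalised variance identity -/
theorem HeavyA_norm {n k L D N0 Y E : ℝ} (hk : 0 < k) (hn : 2 * k < n) (hL : 0 < L)
    (hN0 : k * N0 = n * L) (hD : (n - 1) * D = (n - k) * L)
    (hvar : D * Y + E = (L + 1) - (L + 1) ^ 2 / N0) :
    (1 - k / n) * Y = (n - 1) / n * ((1 + 1 / L) - k / n * (1 + 1 / L) ^ 2 - E / L) := by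
  have hn0 : 0 < n := by linarith
  have hN : N0 = n * L / k := by
    field_simp
    linarith
  have h1 : D * Y = (L + 1) - (L + 1) ^ 2 / N0 - E := by linarith
  have h2 : (n - 1) * D * Y = (n - 1) * ((L + 1) - (L + 1) ^ 2 / N0 - E) := by
    rw [mul_assoc, h1]
  rw [hD, hN] at h2
  have h3 : (1 - k / n) * Y = (n - k) * L * Y / (n * L) := by
    field_simp
  rw [h3, h2]
  field_simp

/-- the two bounds of `Y` -/
theorem HeavyA_bounds {p w u e Y : ℝ} (hp0 : 0 < p) (hp : p < 1 / 2) (hw0 : 0 ≤ w) (hw : w ≤ 1)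
    (hu0 : 0 < u) (hu : u ≤ 1 / 10 ^ 6) (he0 : 0 ≤ e) (he : e ≤ 21 / 10 ^ 7)
    (h : (1 - p) * Y = w * ((1 + u) - p * (1 + u) ^ 2 - e)) :
    w - 5 / 10 ^ 6 ≤ Y ∧ Y ≤ 2 := by
  have h1 : (1 - p) * (Y - w) = w * (u * (1 - 2 * p) - p * u ^ 2 - e) := by
    linear_combination h
  have hq : 0 < 1 - p := by linarith
  have hpu : p * u ^ 2 ≤ 1 / 10 ^ 7 := by
    have h2 : u ^ 2 ≤ 1 / 10 ^ 7 := by nlinarith
    have h3 : 0 ≤ u ^ 2 := sq_nonneg u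
    nlinarith
  have hup : 0 ≤ u * (1 - 2 * p) := mul_nonneg hu0.le (by linarith)
  constructor
  · by_contra hcon
    rw [not_le] at hcon
    have h2 : (1 - p) * (Y - w) < (1 - p) * (-(5 / 10 ^ 6)) :=
      mul_lt_mul_of_pos_left (by linarith) hq
    rw [h1] at h2
    have h3 : -(22 / 10 ^ 7) ≤ w * (u * (1 - 2 * p) - p * u ^ 2 - e) := by
      have h4 : -(22 / 10 ^ 7) ≤ u * (1 - 2 * p) - p * u ^ 2 - e := by linarith
      have h5 : w * (-(22 / 10 ^ 7)) ≤ w * (u * (1 - 2 * p) - p * u ^ 2 - e) :=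
        mul_le_mul_of_nonneg_left h4 hw0
      nlinarith
    nlinarith
  · by_contra hcon
    rw [not_le] at hcon
    have h2 : (1 - p) * 1 < (1 - p) * (Y - w) :=
      mul_lt_mul_of_pos_left (by linarith) hq
    rw [h1] at h2
    have h3 : u * (1 - 2 * p) - p * u ^ 2 - e ≤ 1 / 10 ^ 6 := by
      have h4 : u * (1 - 2 * p) ≤ u := by nlinarith
      have h5 : 0 ≤ p * u ^ 2 := mul_nonneg hp0.le (sq_nonneg u)
      linarith
    have h6 : w * (u * (1 - 2 * p) - p * u ^ 2 - e) ≤ w * (1 / 10 ^ 6) :=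
      mul_le_mul_of_nonneg_left h3 hw0
    nlinarith

/-- the final polynomial inequality -/
theorem HeavyA_fin {n Y : ℝ} (hn : 20 ≤ n) (hY : (n - 1) / n - 5 / 10 ^ 6 ≤ Y) :
    871 / 10 ^ 4 * ((n - 1) * (n - 2) * (n - 3)) <
      n * ((n ^ 2 - 3 * n + 3) * Y ^ 2 - n * (n - 1) * (74 / 100 * Y)) := by
  have hn0 : 0 < n := by linarith
  set Z : ℝ := (n - 1) / n - 5 / 10 ^ 6 with hZ
  have hnZ : n * Z = (n - 1) - 5 / 10 ^ 6 * n := by
    rw [hZ]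
    field_simp
  have hZ1 : 9 / 10 ≤ Z := by
    have h1 : n * (9 / 10) ≤ n * Z := by
      rw [hnZ]
      linarith
    exact le_of_mul_le_mul_left h1 hn0
  have hmono : (n ^ 2 - 3 * n + 3) * Z ^ 2 - n * (n - 1) * (74 / 100 * Z) ≤
      (n ^ 2 - 3 * n + 3) * Y ^ 2 - n * (n - 1) * (74 / 100 * Y) := by
    have h1 : 0 ≤ (Y - Z) * ((n ^ 2 - 3 * n + 3) * (Y + Z) - n * (n - 1) * (74 / 100)) := by
      apply mul_nonneg (by linarith)
      have h2 : 9 / 5 ≤ Y + Z := by linarith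
      have h3 : 0 ≤ n ^ 2 - 3 * n + 3 := by nlinarith
      have h4 : (n ^ 2 - 3 * n + 3) * (9 / 5) ≤ (n ^ 2 - 3 * n + 3) * (Y + Z) :=
        mul_le_mul_of_nonneg_left h2 h3
      nlinarith
    linarith
  have h5 : n * ((n ^ 2 - 3 * n + 3) * Z ^ 2 - n * (n - 1) * (74 / 100 * Z)) ≤
      n * ((n ^ 2 - 3 * n + 3) * Y ^ 2 - n * (n - 1) * (74 / 100 * Y)) :=
    mul_le_mul_of_nonneg_left hmono hn0.le
  refine lt_of_lt_of_le ?_ h5
  have h6 : n * (n * ((n ^ 2 - 3 * n + 3) * Z ^ 2 - n * (n - 1) * (74 / 100 * Z))) =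
      (n ^ 2 - 3 * n + 3) * (n * Z) ^ 2 - 74 / 100 * (n ^ 2 * (n - 1) * (n * Z)) := by
    ring
  have h7 : n * (871 / 10 ^ 4 * ((n - 1) * (n - 2) * (n - 3))) <
      n * (n * ((n ^ 2 - 3 * n + 3) * Z ^ 2 - n * (n - 1) * (74 / 100 * Z))) := by
    rw [h6, hnZ]
    obtain ⟨m, hm⟩ : ∃ m : ℝ, n = 20 + m := ⟨n - 20, by ring⟩
    have hm0 : 0 ≤ m := by linarith
    rw [hm]
    have h8 : 0 ≤ m ^ 2 := by positivity
    have h9 : 0 ≤ m ^ 3 := by positivity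
    have h10 : 0 ≤ m ^ 4 := by positivity
    nlinarith
  exact lt_of_mul_lt_mul_left h7 hn0.le

/-- Write `p = k/n`, `N₀ = C(n,k)`, `L = C(n-1,k-1) = p N₀`, `D = C(n-2,k-1) = L (n-k)/(n-1)`,
`Y = ∑ y²`, `Q = ∑ y⁴`, `E = dev ≤ 2·10⁻⁶ (L+1) ≤ 2.1·10⁻⁶ L`. `variance`:
`D Y = (1-p) L + (1-2p) - 1/N₀ - E`, so `Y ≤ (n-1)/n + 2/L` and
`Y ≥ (n-1)/n - 2 (1/N₀ + E)/L ≥ 1 - 1/n - 5·10⁻⁶`. `fkn_four` (`c = |F|/N₀`):
`(n²-3n+3) Y² - n(n-1) Q ≤ 648·2.1·10⁻⁶ (n-1)(n-2)(n-3)/(k-1) ≤ 0.0871 n(n-1)` as `n ≤ 64 (k-1)`;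
hence `Y² - Q ≤ 0.0871 + (2n-3)/(n(n-1)) Y² ≤ 0.1872` (`n ≥ 20`), and `Q ≤ (max y²) Y` gives
`max y² ≥ Y - 0.1872/Y ≥ 0.7529`. -/
theorem heavyA {β : Type*} [Fintype β] [DecidableEq β] {n k : ℕ} (hk : 2 ≤ k)
    (hn : 2 * k + 1 ≤ n) (hN : Fintype.card β = n) (h20 : 20 ≤ n) (h32 : n ≤ 32 * k)
    {F : Finset (Finset β)} (hcard : F.card = (n - 1).choose (k - 1) + 1)
    (hL : 10 ^ 6 ≤ (n - 1).choose (k - 1)) {y : β → ℝ} (hy : IsLin k F y)
    (hdev : 500000 * dev k F y ≤ F.card) : ∃ x, 74 / 100 ≤ y x ^ 2 := by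
  classical
  by_contra hcon
  push Not at hcon
  obtain ⟨m, rfl⟩ : ∃ m, k = m + 1 := ⟨k - 1, by omega⟩
  obtain ⟨r, rfl⟩ : ∃ r, n = r + 2 := ⟨n - 2, by omega⟩
  have e1 : (r + 2) * (r + 1).choose m = (r + 2).choose (m + 1) * (m + 1) :=
    Nat.add_one_mul_choose_eq (r + 1) m
  have e2 : r.choose m * (r + 1) = (r + 1).choose m * (r + 1 - m) := Nat.choose_mul_succ_eq r m
  have hvar := hy.variance
  have hfkn := fkn_four hk hn hN F ((F.card : ℝ) / ((Fintype.card β).choose (m + 1) : ℝ))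
    hy.sum_zero
  have hsub : r + 2 - 1 = r + 1 := rfl
  have hsub2 : r + 2 - 2 = r := rfl
  have hsub3 : m + 1 - 1 = m := rfl
  rw [hN, hsub2, hsub3, hcard, hsub, hsub3] at hvar
  rw [hcard, hsub, hsub3] at hdev
  rw [hsub, hsub3] at hL
  change ∑ i, y i ^ 2 ≤ 18 → _ ≤ _ * (dev (m + 1) F y / _) at hfkn
  have hcon2 : ∑ i, y i ^ 4 ≤ 74 / 100 * ∑ i, y i ^ 2 := by
    rw [Finset.mul_sum]
    refine Finset.sum_le_sum fun i _ => ?_
    have h1 := hcon i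
    have h2 : 0 ≤ y i ^ 2 := sq_nonneg _
    nlinarith
  have hE0 : 0 ≤ dev (m + 1) F y := Finset.sum_nonneg fun i _ => sq_nonneg _
  generalize dev (m + 1) F y = E at *
  generalize ∑ i, y i ^ 4 = Q at *
  generalize ∑ i, y i ^ 2 = Y at *
  have e1' : ((m + 1 : ℕ) : ℝ) * ((r + 2).choose (m + 1) : ℝ) =
      ((r + 2 : ℕ) : ℝ) * ((r + 1).choose m : ℝ) := by
    have := congrArg (Nat.cast : ℕ → ℝ) e1
    rw [Nat.cast_mul, Nat.cast_mul] at this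
    rw [this, mul_comm]
  have e2' : (((r + 2 : ℕ) : ℝ) - 1) * (r.choose m : ℝ) =
      (((r + 2 : ℕ) : ℝ) - ((m + 1 : ℕ) : ℝ)) * ((r + 1).choose m : ℝ) := by
    have h1 : ((r + 1 - m : ℕ) : ℝ) = (r : ℝ) + 1 - m := by
      rw [Nat.cast_sub (by omega)]
      push_cast
      ring
    have := congrArg (Nat.cast : ℕ → ℝ) e2
    rw [Nat.cast_mul, Nat.cast_mul, h1] at this
    push_cast at this ⊢
    linarith
  have hkr : (2 : ℝ) ≤ ((m + 1 : ℕ) : ℝ) := by exact_mod_cast hk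
  have hnr : 2 * ((m + 1 : ℕ) : ℝ) + 1 ≤ ((r + 2 : ℕ) : ℝ) := by exact_mod_cast hn
  have h20r : (20 : ℝ) ≤ ((r + 2 : ℕ) : ℝ) := by exact_mod_cast h20
  have h32r : ((r + 2 : ℕ) : ℝ) ≤ 32 * ((m + 1 : ℕ) : ℝ) := by exact_mod_cast h32
  have hLr : (10 : ℝ) ^ 6 ≤ ((r + 1).choose m : ℝ) := by exact_mod_cast hL
  rw [Nat.cast_add, Nat.cast_one] at hvar hdev
  generalize ((r + 1).choose m : ℝ) = L at *
  generalize ((r + 2).choose (m + 1) : ℝ) = N0 at *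
  generalize (r.choose m : ℝ) = D at *
  generalize ((m + 1 : ℕ) : ℝ) = k' at *
  generalize ((r + 2 : ℕ) : ℝ) = n' at *
  have hL0 : 0 < L := by linarith
  have hk0 : 0 < k' := by linarith
  have hn0 : 0 < n' := by linarith
  have hnorm := HeavyA_norm hk0 (by linarith) hL0 e1' e2' hvar
  have hp : k' / n' < 1 / 2 := by
    rw [div_lt_iff₀ hn0]
    linarith
  have hw0 : 0 ≤ (n' - 1) / n' := div_nonneg (by linarith) hn0.le
  have hw1 : (n' - 1) / n' ≤ 1 := by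
    rw [div_le_one hn0]
    linarith
  have hu : 1 / L ≤ 1 / 10 ^ 6 := one_div_le_one_div_of_le (by norm_num) hLr
  have he0 : 0 ≤ E / L := div_nonneg hE0 hL0.le
  have he : E / L ≤ 21 / 10 ^ 7 := by
    rw [div_le_iff₀ hL0]
    linarith
  obtain ⟨hYl, hYu⟩ := HeavyA_bounds (div_pos hk0 hn0) hp hw0 hw1 (one_div_pos.2 hL0) hu he0 he
    hnorm
  have hfin := HeavyA_fin h20r hYl
  have hf := hfkn (by linarith)
  have hEN : E / N0 = E / L * k' / n' := by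
    have hN0 : N0 = n' * L / k' := by
      field_simp
      linarith
    rw [hN0]
    field_simp
  rw [hEN] at hf
  have hR : 648 * (n' * (n' - 1) * (n' - 2) * (n' - 3)) * (E / L * k' / n') =
      k' * (648 * ((n' - 1) * (n' - 2) * (n' - 3)) * (E / L)) := by
    field_simp
  rw [hR, mul_assoc k' (k' - 1)] at hf
  have hf2 := le_of_mul_le_mul_left hf hk0
  have hpos : 0 ≤ (n' - 1) * (n' - 2) * (n' - 3) :=
    mul_nonneg (mul_nonneg (by linarith) (by linarith)) (by linarith)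
  have hA : (n' ^ 2 - 3 * n' + 3) * Y ^ 2 - n' * (n' - 1) * (74 / 100 * Y) ≤
      (n' ^ 2 - 3 * n' + 3) * Y ^ 2 - n' * (n' - 1) * Q := by
    have h1 : 0 ≤ n' * (n' - 1) := mul_nonneg hn0.le (by linarith)
    have h2 := mul_le_mul_of_nonneg_left hcon2 h1
    linarith
  generalize (n' ^ 2 - 3 * n' + 3) * Y ^ 2 - n' * (n' - 1) * (74 / 100 * Y) = A at *
  generalize (n' ^ 2 - 3 * n' + 3) * Y ^ 2 - n' * (n' - 1) * Q = B at *
  generalize (n' - 1) * (n' - 2) * (n' - 3) = T at *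
  have hA0 : 0 < A := by
    have h1 : 0 < n' * A := lt_of_le_of_lt (by positivity) hfin
    exact (mul_pos_iff_of_pos_left hn0).1 h1
  have h1 : n' * A ≤ 64 * ((k' - 1) * A) := by
    have h2 : n' ≤ 64 * (k' - 1) := by linarith
    have h3 := mul_le_mul_of_nonneg_right h2 hA0.le
    linarith
  have h2 : (k' - 1) * A ≤ (k' - 1) * B := mul_le_mul_of_nonneg_left hA (by linarith)
  have h3 : 648 * T * (E / L) ≤ 648 * T * (21 / 10 ^ 7) :=
    mul_le_mul_of_nonneg_left he (by positivity)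
  nlinarith

end Pool.Agent.Lib.MP_fffc5a_co.T
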