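import Mathlib
import Pool.Agent.Lib.MP_fffc5a_co.T.Defs
import Pool.Agent.Lib.MP_fffc5a_co.OpSums
import Pool.Agent.Lib.MP_fffc5a_co.SliceVar

/-!
Fourth moment of a linear function on the slice.
-/

set_option autoImplicit false

open Finset

namespace Pool.Agent.Lib.MP_fffc5a_co.T

theorem Mom_compl {β : Type*} [Fintype β] [DecidableEq β] (f : β → ℝ) (J : Finset β) :
    ∑ z ∈ Jᶜ, f z = ∑ z, f z - ∑ z ∈ J, f z := by
  have h := Finset.sum_add_sum_compl J f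
  linarith

theorem Mom_zero {β : Type*} [Fintype β] [DecidableEq β] (y : β → ℝ) (hy : ∑ i, y i = 0)
    (k : ℕ) : ∑ Z ∈ powersetCard k univ, ∑ i ∈ Z, y i = 0 := by
  induction k with
  | zero => simp
  | succ k ih =>
    rw [← h3_swap (β := β) k (fun _ z => y z)]
    have h : ∀ J : Finset β, ∑ z ∈ Jᶜ, y z = -∑ z ∈ J, y z := by
      intro J
      rw [Mom_compl, hy, zero_sub]
    rw [Finset.sum_congr rfl fun J _ => h J, Finset.sum_neg_distrib, ih, neg_zero]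

/-- the bilinear form of `slice_var` -/
theorem Mom_bil {β : Type*} [Fintype β] [DecidableEq β] {k : ℕ} (hk : 1 ≤ k)
    (hN : k + 1 ≤ Fintype.card β) (y w : β → ℝ) (hy : ∑ i, y i = 0) (hw : ∑ i, w i = 0) :
    ∑ Z ∈ powersetCard k univ, (∑ i ∈ Z, y i) * (∑ i ∈ Z, w i) =
      (Fintype.card β - 2).choose (k - 1) * ∑ i, y i * w i := by
  have h1 := slice_var hk hN y hy
  have h2 := slice_var hk hN w hw
  have h3 := slice_var hk hN (fun i => y i + w i) (by rw [sum_add_distrib, hy, hw, add_zero])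
  have e1 : ∑ Z ∈ powersetCard k (univ : Finset β), (∑ i ∈ Z, (y i + w i)) ^ 2 =
      ∑ Z ∈ powersetCard k (univ : Finset β), (∑ i ∈ Z, y i) ^ 2 +
      2 * ∑ Z ∈ powersetCard k (univ : Finset β), (∑ i ∈ Z, y i) * (∑ i ∈ Z, w i) +
      ∑ Z ∈ powersetCard k (univ : Finset β), (∑ i ∈ Z, w i) ^ 2 := by
    rw [mul_sum, ← sum_add_distrib, ← sum_add_distrib]
    refine sum_congr rfl fun Z _ => ?_
    rw [sum_add_distrib]
    ring
  have e2 : ∑ i, (y i + w i) ^ 2 = ∑ i, y i ^ 2 + 2 * ∑ i, y i * w i + ∑ i, w i ^ 2 := by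
    rw [mul_sum, ← sum_add_distrib, ← sum_add_distrib]
    refine sum_congr rfl fun i _ => ?_
    ring
  rw [e1, e2, h1, h2] at h3
  linarith

theorem Mom_cube {β : Type*} [Fintype β] [DecidableEq β] {k : ℕ} (hk : 1 ≤ k)
    (hN : k + 1 ≤ Fintype.card β) (y : β → ℝ) (hy : ∑ i, y i = 0) :
    ∑ Z ∈ powersetCard k univ, (∑ i ∈ Z, y i) * (∑ i ∈ Z, y i ^ 3) =
      (Fintype.card β - 2).choose (k - 1) * ∑ i, y i ^ 4 := by
  have hn : (Fintype.card β : ℝ) ≠ 0 := by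
    have : 0 < Fintype.card β := by omega
    positivity
  set R : ℝ := ∑ i, y i ^ 3 with hR
  have h := Mom_bil hk hN y (fun i => y i ^ 3 - R / Fintype.card β) hy (by
    rw [sum_sub_distrib, sum_const, card_univ, nsmul_eq_mul, mul_div_cancel₀ _ hn, hR, sub_self])
  have e1 : ∑ Z ∈ powersetCard k (univ : Finset β),
      (∑ i ∈ Z, y i) * (∑ i ∈ Z, (y i ^ 3 - R / Fintype.card β)) =
      ∑ Z ∈ powersetCard k (univ : Finset β), (∑ i ∈ Z, y i) * (∑ i ∈ Z, y i ^ 3) -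
      (k * (R / Fintype.card β)) * ∑ Z ∈ powersetCard k (univ : Finset β), ∑ i ∈ Z, y i := by
    rw [mul_sum, ← sum_sub_distrib]
    refine sum_congr rfl fun Z hZ => ?_
    rw [sum_sub_distrib, sum_const, (mem_powersetCard.1 hZ).2, nsmul_eq_mul]
    ring
  have e2 : ∑ i, y i * (y i ^ 3 - R / Fintype.card β) = ∑ i, y i ^ 4 := by
    have e3 : ∀ i, y i * (y i ^ 3 - R / Fintype.card β) =
        y i ^ 4 - (R / Fintype.card β) * y i := fun i => by ring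
    simp only [e3]
    rw [sum_sub_distrib, ← mul_sum, hy, mul_zero, sub_zero]
  rw [e1, e2, Mom_zero y hy k, mul_zero, sub_zero] at h
  exact h

theorem Mom_expand {β : Type*} [Fintype β] [DecidableEq β] (y : β → ℝ) (hy : ∑ i, y i = 0)
    (J : Finset β) :
    ∑ z ∈ Jᶜ, (∑ i ∈ insert z J, y i) ^ 4 =
      ((Fintype.card β : ℝ) - J.card) * (∑ i ∈ J, y i) ^ 4 - 4 * (∑ i ∈ J, y i) ^ 4 +
      6 * (∑ i ∈ J, y i) ^ 2 * (∑ i, y i ^ 2 - ∑ i ∈ J, y i ^ 2) +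
      4 * (∑ i ∈ J, y i) * (∑ i, y i ^ 3 - ∑ i ∈ J, y i ^ 3) +
      (∑ i, y i ^ 4 - ∑ i ∈ J, y i ^ 4) := by
  set S : ℝ := ∑ i ∈ J, y i with hS
  have h1 : ∀ z ∈ Jᶜ, (∑ i ∈ insert z J, y i) ^ 4 =
      S ^ 4 + 4 * S ^ 3 * y z + 6 * S ^ 2 * y z ^ 2 + 4 * S * y z ^ 3 + y z ^ 4 := by
    intro z hz
    rw [sum_insert (mem_compl.1 hz), ← hS]
    ring
  have hc : ((Jᶜ).card : ℝ) = (Fintype.card β : ℝ) - J.card := by
    rw [card_compl, Nat.cast_sub (card_le_univ J)]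
  rw [sum_congr rfl h1, sum_add_distrib, sum_add_distrib, sum_add_distrib, sum_add_distrib,
    sum_const, nsmul_eq_mul, hc, ← mul_sum, ← mul_sum, ← mul_sum, Mom_compl y, hy, ← hS,
    Mom_compl (fun z => y z ^ 2), Mom_compl (fun z => y z ^ 3), Mom_compl (fun z => y z ^ 4)]
  ring

theorem Mom_step {β : Type*} [Fintype β] [DecidableEq β] {k : ℕ} (hk : 1 ≤ k)
    (hN : k + 1 ≤ Fintype.card β) (y : β → ℝ) (hy : ∑ i, y i = 0) :
    ((k : ℝ) + 1) * ∑ X ∈ powersetCard (k + 1) univ, (∑ i ∈ X, y i) ^ 4 ≤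
      ((Fintype.card β : ℝ) - k) * ∑ X ∈ powersetCard k univ, (∑ i ∈ X, y i) ^ 4 +
      6 * ((Fintype.card β - 2).choose (k - 1) : ℝ) * (∑ i, y i ^ 2) ^ 2 +
      ((Fintype.card β).choose k : ℝ) * ∑ i, y i ^ 4 := by
  have h0 : ((k : ℝ) + 1) * ∑ X ∈ powersetCard (k + 1) univ, (∑ i ∈ X, y i) ^ 4 =
      ∑ J ∈ powersetCard k univ, ∑ z ∈ Jᶜ, (∑ i ∈ insert z J, y i) ^ 4 := by
    rw [h3_swap (β := β) k (fun Z _ => (∑ i ∈ Z, y i) ^ 4), mul_sum]
    refine sum_congr rfl fun X hX => ?_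
    rw [sum_const, (mem_powersetCard.1 hX).2, nsmul_eq_mul]
    push_cast
    ring
  set Y : ℝ := ∑ i, y i ^ 2 with hY
  set R : ℝ := ∑ i, y i ^ 3 with hR
  set Q : ℝ := ∑ i, y i ^ 4 with hQ
  have hpt : ∀ J ∈ powersetCard k (univ : Finset β),
      ∑ z ∈ Jᶜ, (∑ i ∈ insert z J, y i) ^ 4 ≤
        ((Fintype.card β : ℝ) - k) * (∑ i ∈ J, y i) ^ 4 + 6 * Y * (∑ i ∈ J, y i) ^ 2 +
        4 * R * (∑ i ∈ J, y i) - 4 * ((∑ i ∈ J, y i) * (∑ i ∈ J, y i ^ 3)) + Q := by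
    intro J hJ
    rw [Mom_expand y hy J, (mem_powersetCard.1 hJ).2]
    have h2 : 0 ≤ ∑ i ∈ J, y i ^ 2 := sum_nonneg fun _ _ => by positivity
    have h4 : 0 ≤ ∑ i ∈ J, y i ^ 4 := sum_nonneg fun _ _ => by positivity
    have h5 : 0 ≤ (∑ i ∈ J, y i) ^ 2 * ∑ i ∈ J, y i ^ 2 := mul_nonneg (sq_nonneg _) h2
    have h6 : 0 ≤ (∑ i ∈ J, y i) ^ 4 := by positivity
    rw [← hY, ← hR, ← hQ]
    linarith
  rw [h0]
  refine (sum_le_sum hpt).trans ?_
  rw [sum_add_distrib, sum_sub_distrib, sum_add_distrib, sum_add_distrib, ← mul_sum, ← mul_sum,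
    ← mul_sum, ← mul_sum, sum_const, card_powersetCard, card_univ, nsmul_eq_mul,
    slice_var hk hN y hy, Mom_zero y hy k, Mom_cube hk hN y hy, ← hY, ← hQ]
  have hQ0 : 0 ≤ Q := sum_nonneg fun _ _ => by positivity
  have h7 : 0 ≤ ((Fintype.card β - 2).choose (k - 1) : ℝ) * Q :=
    mul_nonneg (Nat.cast_nonneg _) hQ0
  have h8 : 6 * Y * (((Fintype.card β - 2).choose (k - 1) : ℝ) * Y) =
      6 * ((Fintype.card β - 2).choose (k - 1) : ℝ) * Y ^ 2 := by ring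
  rw [h8]
  linarith

theorem Mom_binA {n k : ℕ} (hk : k ≤ n) :
    ((k : ℝ) + 1) * (n.choose (k + 1) : ℝ) = ((n : ℝ) - k) * (n.choose k : ℝ) := by
  have h := Nat.choose_succ_right_eq n k
  have h2 : ((n.choose (k + 1) * (k + 1) : ℕ) : ℝ) = ((n.choose k * (n - k) : ℕ) : ℝ) := by rw [h]
  rw [Nat.cast_mul, Nat.cast_mul, Nat.cast_sub hk, Nat.cast_add, Nat.cast_one] at h2
  linarith

theorem Mom_binB {n k : ℕ} (hk : 1 ≤ k) (hn : k + 1 ≤ n) :
    ((n - 2).choose (k - 1) : ℝ) * ((n : ℝ) * (n - 1)) =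
      (n.choose k : ℝ) * ((k : ℝ) * (n - k)) := by
  obtain ⟨j, rfl⟩ : ∃ j, k = j + 1 := ⟨k - 1, by omega⟩
  obtain ⟨m, rfl⟩ : ∃ m, n = m + 2 := ⟨n - 2, by omega⟩
  have e1 : m + 2 - 2 = m := by omega
  have e2 : j + 1 - 1 = j := by omega
  rw [e1, e2]
  have h1 : (((m + 1 + 1) * (m + 1).choose j : ℕ) : ℝ) =
      (((m + 1 + 1).choose (j + 1) * (j + 1) : ℕ) : ℝ) := by
    have := Nat.add_one_mul_choose_eq (m + 1) j
    exact_mod_cast this
  have h2 : ((m.choose j * (m + 1) : ℕ) : ℝ) = (((m + 1).choose j * (m + 1 - j) : ℕ) : ℝ) := by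
    rw [Nat.choose_mul_succ_eq]
  have e3 : m + 1 + 1 = m + 2 := rfl
  rw [e3, Nat.cast_mul, Nat.cast_mul] at h1
  rw [Nat.cast_mul, Nat.cast_mul, Nat.cast_sub (by omega : j ≤ m + 1)] at h2
  push_cast at h1 h2 ⊢
  calc (m.choose j : ℝ) * (((m : ℝ) + 2) * (m + 2 - 1))
      = ((m : ℝ) + 2) * ((m.choose j : ℝ) * (m + 1)) := by ring
    _ = ((m : ℝ) + 2) * (((m + 1).choose j : ℝ) * (m + 1 - j)) := by rw [h2]
    _ = (((m : ℝ) + 2) * ((m + 1).choose j : ℝ)) * (m + 1 - j) := by ring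
    _ = (((m + 2).choose (j + 1) : ℝ) * (j + 1)) * (m + 1 - j) := by rw [h1]
    _ = _ := by ring

theorem Mom_main {β : Type*} [Fintype β] [DecidableEq β] (y : β → ℝ) (hy : ∑ i, y i = 0)
    (k : ℕ) (hk : k < Fintype.card β) :
    ∑ X ∈ powersetCard k univ, (∑ i ∈ X, y i) ^ 4 ≤
      ((Fintype.card β).choose k : ℝ) * ((k : ℝ) / ((Fintype.card β : ℝ) - k) * ∑ i, y i ^ 4 +
        3 * ((k : ℝ) * (k - 1) / ((Fintype.card β : ℝ) * (Fintype.card β - 1))) *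
          (∑ i, y i ^ 2) ^ 2) := by
  set n : ℕ := Fintype.card β with hn
  set Y : ℝ := ∑ i, y i ^ 2 with hY
  set Q : ℝ := ∑ i, y i ^ 4 with hQ
  have hQ0 : 0 ≤ Q := sum_nonneg fun _ _ => by positivity
  induction k with
  | zero => simp
  | succ k ih =>
    have ih' := ih (by omega)
    have hkn : ((k : ℝ) + 1) < n := by exact_mod_cast hk
    have hk0 : (0 : ℝ) ≤ k := Nat.cast_nonneg k
    have hA := Mom_binA (n := n) (k := k) (by omega)
    have hk1 : (0 : ℝ) < (k : ℝ) + 1 := by positivity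
    have hnk : (0 : ℝ) < (n : ℝ) - k := by linarith
    have hnk1 : (0 : ℝ) < (n : ℝ) - (k + 1) := by linarith
    have hC0 : (0 : ℝ) ≤ ((n.choose (k + 1) : ℕ) : ℝ) := Nat.cast_nonneg _
    rw [Nat.cast_add, Nat.cast_one]
    have hfin : ((k : ℝ) + 1) / ((n : ℝ) - k) * Q ≤ ((k : ℝ) + 1) / ((n : ℝ) - (k + 1)) * Q := by
      refine mul_le_mul_of_nonneg_right ?_ hQ0
      exact div_le_div_of_nonneg_left hk1.le hnk1 (by linarith)
    rcases Nat.eq_zero_or_pos k with rfl | hkpos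
    · have e1 : ∑ X ∈ powersetCard (0 + 1) (univ : Finset β), (∑ i ∈ X, y i) ^ 4 = Q := by
        rw [zero_add, powersetCard_one, sum_map]
        simp only [Function.Embedding.coeFn_mk, sum_singleton]
        rfl
      rw [e1]
      have e2 : ((n.choose (0 + 1) : ℕ) : ℝ) = n := by rw [zero_add, Nat.choose_one_right]
      rw [e2]
      simp only [Nat.cast_zero, zero_add, sub_self, mul_zero, zero_div, zero_mul, add_zero,
        sub_zero] at hfin ⊢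
      have h3 : (n : ℝ) * (1 / (n : ℝ) * Q) = Q := by
        have : (n : ℝ) ≠ 0 := by
          have : 0 < n := by omega
          positivity
        field_simp
      calc Q = (n : ℝ) * (1 / (n : ℝ) * Q) := h3.symm
        _ ≤ _ := mul_le_mul_of_nonneg_left hfin (Nat.cast_nonneg _)
    · have hst := Mom_step (β := β) hkpos (by omega) y hy
      rw [← hn, ← hY, ← hQ] at hst
      have hB := Mom_binB (n := n) (k := k) hkpos (by omega)
      have hn0 : (0 : ℝ) < n := by linarith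
      have hk1' : (1 : ℝ) ≤ k := by exact_mod_cast hkpos
      have hn1 : (0 : ℝ) < (n : ℝ) - 1 := by linarith
      have hnn : (0 : ℝ) < (n : ℝ) * (n - 1) := mul_pos hn0 hn1
      have hB' : (((n - 2).choose (k - 1) : ℕ) : ℝ) =
          ((n : ℝ) - k) * (n.choose k : ℝ) * ((k : ℝ) / ((n : ℝ) * (n - 1))) := by
        rw [eq_comm, ← mul_div_assoc, div_eq_iff hnn.ne', hB]
        ring
      have hCk : (n.choose k : ℝ) = ((k : ℝ) + 1) * (n.choose (k + 1) : ℝ) / ((n : ℝ) - k) := by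
        rw [hA]
        field_simp
      set T : ℝ := ∑ X ∈ powersetCard k univ, (∑ i ∈ X, y i) ^ 4 with hT
      set T' : ℝ := ∑ X ∈ powersetCard (k + 1) univ, (∑ i ∈ X, y i) ^ 4 with hT'
      set C' : ℝ := ((n.choose (k + 1) : ℕ) : ℝ) with hC'
      have h1 : ((n : ℝ) - k) * T ≤ (((k : ℝ) + 1) * C') *
          ((k : ℝ) / ((n : ℝ) - k) * Q +
            3 * ((k : ℝ) * (k - 1) / ((n : ℝ) * (n - 1))) * Y ^ 2) := by
        rw [hA, mul_assoc]
        exact mul_le_mul_of_nonneg_left ih' hnk.le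
      have h2 : 6 * (((n - 2).choose (k - 1) : ℕ) : ℝ) * Y ^ 2 =
          (((k : ℝ) + 1) * C') * (6 * ((k : ℝ) / ((n : ℝ) * (n - 1))) * Y ^ 2) := by
        rw [hB', hA]
        ring
      have h3 : (n.choose k : ℝ) * Q = (((k : ℝ) + 1) * C') * (Q / ((n : ℝ) - k)) := by
        rw [hCk]
        field_simp
      rw [h2, h3] at hst
      have h4 : ((k : ℝ) + 1) * T' ≤ ((k : ℝ) + 1) * (C' *
          (((k : ℝ) + 1) / ((n : ℝ) - k) * Q +
            3 * (((k : ℝ) + 1) * ((k + 1) - 1) / ((n : ℝ) * (n - 1))) * Y ^ 2)) := by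
        refine (hst.trans (add_le_add (add_le_add h1 le_rfl) le_rfl)).trans (le_of_eq ?_)
        have hnk' := hnk.ne'
        have hn0' := hn0.ne'
        have hn1' := hn1.ne'
        field_simp
        ring
      have h5 := le_of_mul_le_mul_left h4 hk1
      refine h5.trans (mul_le_mul_of_nonneg_left ?_ hC0)
      exact add_le_add hfin le_rfl

/-- Induction on `k`, stronger bound `A(k) ≤ k/(n-k) Q + 3k(k-1)/(n(n-1)) Y²` for the mean `A(k)`,
`Y = ∑ y²`, `Q = ∑ y⁴` (and `(k-1)/(n-1) ≤ k/n`). Step: by `h3_swap` with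
`f Z z = (∑_{i ∈ Z} y i)^4`: `(k+1) C(n,k+1) A(k+1) = ∑_X ∑_{j ∉ X} (S(X) + y j)^4`, where
`∑_{j ∉ X} y j = -S(X)`, so the inner sum is
`(n-k) S⁴ - 4 S⁴ + 6 S² (Y - S₂(X)) + 4 S (R - S₃(X)) + (Q - S₄(X))`,
`S_r(X) = ∑_{i ∈ X} y i ^ r`, `R = ∑ y³`. Drop `-4S⁴`, `-6 S² S₂`, `-S₄`; `∑_X S = 0`
(`k15_sum_zero` in FknSlice, or directly); `∑_X S S₃ = C(n-2,k-1) Q ≥ 0` because
`∑_{X ∋ i} S(X) = C(n-2,k-1) y i`; `∑_X S² = C(n-2,k-1) Y` (`slice_var`). With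
`(k+1) C(n,k+1) = (n-k) C(n,k)` and `C(n-2,k-1) = C(n,k) k(n-k)/(n(n-1))`:
`A(k+1) ≤ A(k) + 6 Y² k/(n(n-1)) + Q/(n-k)`. -/
theorem mom4 {β : Type*} [Fintype β] [DecidableEq β] {k : ℕ} (hk : k < Fintype.card β)
    (y : β → ℝ) (hy : ∑ i, y i = 0) :
    ∑ X ∈ powersetCard k univ, (∑ i ∈ X, y i) ^ 4 ≤
      ((Fintype.card β).choose k : ℝ) * ((k : ℝ) / ((Fintype.card β : ℝ) - k) * ∑ i, y i ^ 4 +
        3 * ((k : ℝ) / Fintype.card β) ^ 2 * (∑ i, y i ^ 2) ^ 2) := by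
  refine (Mom_main y hy k hk).trans (mul_le_mul_of_nonneg_left ?_ (Nat.cast_nonneg _))
  refine add_le_add le_rfl (mul_le_mul_of_nonneg_right ?_ (sq_nonneg _))
  refine mul_le_mul_of_nonneg_left ?_ (by norm_num)
  rcases Nat.eq_zero_or_pos k with rfl | hkpos
  · simp
  · have hk1 : (1 : ℝ) ≤ k := by exact_mod_cast hkpos
    have hkn : (k : ℝ) < Fintype.card β := by exact_mod_cast hk
    have hn0 : (0 : ℝ) < Fintype.card β := by linarith
    have hn1 : (0 : ℝ) < (Fintype.card β : ℝ) - 1 := by linarith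
    rw [div_pow, div_le_div_iff₀ (mul_pos hn0 hn1) (by positivity)]
    have h1 : ((k : ℝ) - 1) * Fintype.card β ≤ k * ((Fintype.card β : ℝ) - 1) := by linarith
    have h2 : (0 : ℝ) ≤ (k : ℝ) * Fintype.card β := by positivity
    have h3 := mul_le_mul_of_nonneg_left h1 h2
    calc (k : ℝ) * (k - 1) * (Fintype.card β : ℝ) ^ 2
        = (k : ℝ) * Fintype.card β * (((k : ℝ) - 1) * Fintype.card β) := by ring
      _ ≤ (k : ℝ) * Fintype.card β * (k * ((Fintype.card β : ℝ) - 1)) := h3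
      _ = _ := by ring

end Pool.Agent.Lib.MP_fffc5a_co.T
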