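import Mathlib
import Pool.Agent.Lib.MP_fffc5a_co.T.Mom

/-!
A heavy point, `n ≥ 32 k`.
-/

set_option autoImplicit false

open Finset

namespace Pool.Agent.Lib.MP_fffc5a_co.T

private theorem HeavyB_num {p N L D E Y Q S n k : ℝ} (hk : 2 ≤ k) (h32 : 32 * k ≤ n)
    (hL : 10 ^ 6 ≤ L) (h1 : n * L = k * N) (h2 : (n - 1) * D = (n - k) * L)
    (hE : 500000 * E ≤ L + 1) (hE0 : 0 ≤ E) (hp : p = k / n)
    (hvar : D * Y + E = (L + 1) - (L + 1) ^ 2 / N)
    (hlow : 4 * (D * Y) - 3 * (L + 1) ≤ S)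
    (hup : S ≤ N * (k / (n - k) * Q + 3 * (k / n) ^ 2 * Y ^ 2)) (hY0 : 0 ≤ Y)
    (hQ : Q ≤ 74 / 100 * Y) : False := by
  have hn : 0 < n := by linarith
  have hn1 : 0 < n - 1 := by linarith
  have hnk : 0 < n - k := by linarith
  have hk0 : 0 < k := by linarith
  have hL0 : 0 < L := by linarith
  have hN0 : 0 < N := by
    by_contra hcon
    push Not at hcon
    have h3 : k * N ≤ 0 := mul_nonpos_of_nonneg_of_nonpos hk0.le hcon
    have h4 : 0 < n * L := mul_pos hn hL0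
    linarith
  have hp0 : 0 < p := by rw [hp]; positivity
  have hp1 : p ≤ 1 / 32 := by
    rw [hp, div_le_iff₀ hn]
    linarith
  have hpn : p * n = k := by rw [hp]; field_simp
  have hLp : L = p * N := by
    have h3 : n * L = n * (p * N) := by
      rw [h1, ← hpn]
      ring
    exact mul_left_cancel₀ hn.ne' h3
  -- the mean
  have hphi : (L + 1) / N = p + 1 / N := by
    rw [add_div, hLp]
    field_simp
  have hN1 : 1 / N ≤ p / 10 ^ 6 := by
    rw [div_le_div_iff₀ hN0 (by norm_num)]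
    rw [← hLp]
    linarith
  have hN2 : 0 < 1 / N := by positivity
  set φ := (L + 1) / N with hφ
  have hsq : (L + 1) ^ 2 / N = (L + 1) * φ := by
    rw [hφ]
    ring
  rw [hsq] at hvar
  have hphi1 : φ ≤ 1 / 32 + 1 / 10 ^ 7 := by
    rw [hphi]
    have h3 : p / 10 ^ 6 ≤ 1 / 32 / 10 ^ 6 := div_le_div_of_nonneg_right hp1 (by norm_num)
    norm_num at h3 hN1 hp1 ⊢
    linarith
  -- upper bound of Y
  have hY : Y ≤ 1 + 1 / 10 ^ 6 := by
    have h3 : D * Y ≤ (L + 1) * (1 - p) := by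
      have h4 : (L + 1) * p ≤ (L + 1) * φ := mul_le_mul_of_nonneg_left (by linarith) (by linarith)
      linarith
    have h5 : (n - 1) * (D * Y) ≤ (n - 1) * ((L + 1) * (1 - p)) :=
      mul_le_mul_of_nonneg_left h3 hn1.le
    have h6 : (n - 1) * (D * Y) = (n - k) * L * Y := by
      rw [← h2]
      ring
    have h7 : (n - k) = n * (1 - p) := by
      rw [← hpn]
      ring
    rw [h6, h7] at h5
    have hp2 : 0 < 1 - p := by linarith
    have h8 : (1 - p) * (n * (L * Y)) ≤ (1 - p) * ((n - 1) * (L + 1)) := by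
      calc (1 - p) * (n * (L * Y)) = n * (1 - p) * L * Y := by ring
        _ ≤ (n - 1) * ((L + 1) * (1 - p)) := h5
        _ = (1 - p) * ((n - 1) * (L + 1)) := by ring
    have h9 : n * (L * Y) ≤ (n - 1) * (L + 1) := le_of_mul_le_mul_left h8 hp2
    have h10 : (n - 1) * (L + 1) ≤ n * (L + 1) := by nlinarith
    have h11 : n * (L * Y) ≤ n * (L + 1) := h9.trans h10
    have h12 : L * Y ≤ L + 1 := le_of_mul_le_mul_left h11 hn
    have h13 : L + 1 ≤ L * (1 + 1 / 10 ^ 6) := by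
      have : (1 : ℝ) ≤ L * (1 / 10 ^ 6) := by
        norm_num at hL ⊢
        linarith
      linarith
    exact le_of_mul_le_mul_left (h12.trans h13) hL0
  -- comparison
  have hup2 : N * (k / (n - k) * Q + 3 * (k / n) ^ 2 * Y ^ 2) =
      L * (Q / (1 - p) + 3 * p * Y ^ 2) := by
    have h3 : k / (n - k) = p / (1 - p) := by
      have hp2 : 1 - p ≠ 0 := by linarith
      rw [div_eq_div_iff hnk.ne' hp2, ← hpn]
      ring
    rw [h3, ← hp, hLp]
    ring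
  rw [hup2] at hup
  have h14 : (L + 1) * (1 - 4 * φ - 8 / 10 ^ 6) ≤ L * (Q / (1 - p) + 3 * p * Y ^ 2) := by
    refine le_trans ?_ hup
    refine le_trans ?_ hlow
    have h15 : D * Y = (L + 1) - (L + 1) * φ - E := by linarith
    rw [h15]
    norm_num
    nlinarith
  have h15 : L * (1 - 4 * φ - 8 / 10 ^ 6) ≤ (L + 1) * (1 - 4 * φ - 8 / 10 ^ 6) := by
    refine mul_le_mul_of_nonneg_right (by linarith) ?_
    norm_num at hphi1 ⊢
    linarith
  have h16 : 1 - 4 * φ - 8 / 10 ^ 6 ≤ Q / (1 - p) + 3 * p * Y ^ 2 :=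
    le_of_mul_le_mul_left (h15.trans h14) hL0
  have hY2 : Y ^ 2 ≤ 1 + 3 / 10 ^ 6 := by
    have h17 : Y ^ 2 ≤ (1 + 1 / 10 ^ 6) ^ 2 := pow_le_pow_left₀ hY0 hY 2
    refine h17.trans ?_
    norm_num
  have h18 : 3 * p * Y ^ 2 ≤ 3 * (1 / 32) * (1 + 3 / 10 ^ 6) := by
    have h19 : 3 * p ≤ 3 * (1 / 32) := by linarith
    exact mul_le_mul h19 hY2 (sq_nonneg _) (by norm_num)
  have h20 : Q / (1 - p) ≤ (74 / 100 * (1 + 1 / 10 ^ 6)) / (31 / 32) := by
    have h21 : Q ≤ 74 / 100 * (1 + 1 / 10 ^ 6) := hQ.trans (by linarith)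
    exact div_le_div₀ (by norm_num) h21 (by norm_num) (by linarith)
  norm_num at h16 h18 h20 hphi1
  linarith

/-- Notation as in HeavyA, `φ = |F|/N₀ ≤ p + 10⁻⁶`, `p ≤ 1/32`. For real `z`: `z⁴ ≥ 4z - 3`
(and `≥ 0`), so with `inner` and `variance`
`∑_Z (∑_{i ∈ Z} y i)⁴ ≥ ∑_{Z ∈ F} (4 ∑_{i ∈ Z} y i - 3) = 4 D Y - 3 |F| = |F| (1 - 4φ) - 4 E
≥ |F| (1 - 4φ - 8·10⁻⁶)`. By `mom4` the left side is at most
`N₀ (k/(n-k) Q + 3p² Y²) = L (Q/(1-p) + 3 p Y²)`. With `Y ≤ 1 + 2·10⁻⁶` (as in HeavyA):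
`Q ≥ (1-p)(1 - 4φ - 8·10⁻⁶ - 3 p Y²) ≥ 0.75`, and `Q ≤ (max y²) Y`. -/
theorem heavyB {β : Type*} [Fintype β] [DecidableEq β] {n k : ℕ} (hk : 2 ≤ k)
    (hN : Fintype.card β = n) (h32 : 32 * k ≤ n)
    {F : Finset (Finset β)} (hF : ∀ s ∈ F, s.card = k) (hcard : F.card = (n - 1).choose (k - 1) + 1)
    (hL : 10 ^ 6 ≤ (n - 1).choose (k - 1)) {y : β → ℝ} (hy : IsLin k F y)
    (hdev : 500000 * dev k F y ≤ F.card) : ∃ x, 74 / 100 ≤ y x ^ 2 := by
  by_contra hcon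
  push Not at hcon
  have hkn : k ≤ n := by omega
  have hvar := hy.variance
  have hinn := hy.inner
  have hmom := mom4 (β := β) (k := k) (by omega) y hy.sum_zero
  rw [hN] at hvar hinn hmom
  set S := ∑ X ∈ powersetCard k univ, (∑ i ∈ X, y i) ^ 4 with hS
  set Y := ∑ i, y i ^ 2 with hY
  set Q := ∑ i, y i ^ 4 with hQ
  have hlow : 4 * (((n - 2).choose (k - 1) : ℝ) * Y) - 3 * (F.card : ℝ) ≤ S := by
    have h1 : ∑ Z ∈ F, (4 * (∑ i ∈ Z, y i) - 3) ≤ S := by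
      calc ∑ Z ∈ F, (4 * (∑ i ∈ Z, y i) - 3) ≤ ∑ Z ∈ F, (∑ i ∈ Z, y i) ^ 4 := by
            refine sum_le_sum fun Z _ => ?_
            nlinarith [sq_nonneg ((∑ i ∈ Z, y i) ^ 2 - 1), sq_nonneg ((∑ i ∈ Z, y i) - 1)]
        _ ≤ S := by
            refine sum_le_sum_of_subset_of_nonneg ?_ fun _ _ _ => by positivity
            intro Z hZ
            rw [mem_powersetCard]
            exact ⟨subset_univ _, hF Z hZ⟩
    rw [sum_sub_distrib, ← mul_sum, hinn, sum_const, nsmul_eq_mul] at h1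
    linarith
  have hQY : Q ≤ 74 / 100 * Y := by
    rw [hQ, hY, mul_sum]
    refine sum_le_sum fun i _ => ?_
    have h1 := (hcon i).le
    have h2 : y i ^ 4 = y i ^ 2 * y i ^ 2 := by ring
    rw [h2]
    exact mul_le_mul_of_nonneg_right h1 (sq_nonneg _)
  have hE0 : 0 ≤ dev k F y := sum_nonneg fun _ _ => sq_nonneg _
  have hFc : (F.card : ℝ) = ((n - 1).choose (k - 1) : ℝ) + 1 := by
    rw [hcard]
    push_cast
    ring
  rw [hFc] at hvar hlow hdev
  obtain ⟨m, rfl⟩ : ∃ m, n = m + 2 := ⟨n - 2, by omega⟩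
  obtain ⟨j, rfl⟩ : ∃ j, k = j + 1 := ⟨k - 1, by omega⟩
  have c1 : m + 2 - 1 = m + 1 := by omega
  have c2 : j + 1 - 1 = j := by omega
  have c3 : m + 2 - 2 = m := by omega
  rw [c1, c2] at hvar hlow hdev hL
  rw [c3] at hvar hlow
  have h1 : (m + 2) * (m + 1).choose j = (m + 2).choose (j + 1) * (j + 1) :=
    Nat.add_one_mul_choose_eq (m + 1) j
  have h2 : (m + 1) * m.choose j = (m + 1).choose j * (m + 1 - j) := by
    have h3 := Nat.add_one_mul_choose_eq m j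
    have h4 := Nat.choose_succ_right_eq (m + 1) j
    rw [h3]
    exact h4
  have h1' : ((m : ℝ) + 2) * ((m + 1).choose j : ℝ) = ((j : ℝ) + 1) * ((m + 2).choose (j + 1) : ℝ) := by
    have h3 : (((m + 2) * (m + 1).choose j : ℕ) : ℝ) = (((m + 2).choose (j + 1) * (j + 1) : ℕ) : ℝ) := by
      rw [h1]
    push_cast at h3
    linarith
  have h2' : ((m : ℝ) + 1) * (m.choose j : ℝ) = ((m : ℝ) + 2 - ((j : ℝ) + 1)) * ((m + 1).choose j : ℝ) := by
    have h3 : (((m + 1) * m.choose j : ℕ) : ℝ) = (((m + 1).choose j * (m + 1 - j) : ℕ) : ℝ) := by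
      rw [h2]
    rw [Nat.cast_mul, Nat.cast_mul, Nat.cast_sub (by omega)] at h3
    push_cast at h3
    linarith
  have hL' : (10 : ℝ) ^ 6 ≤ ((m + 1).choose j : ℝ) := by exact_mod_cast hL
  push_cast at hmom
  refine HeavyB_num (p := ((j : ℝ) + 1) / ((m : ℝ) + 2)) (n := (m : ℝ) + 2) (k := (j : ℝ) + 1)
    (N := ((m + 2).choose (j + 1) : ℝ)) (L := ((m + 1).choose j : ℝ)) (D := (m.choose j : ℝ))
    (E := dev (j + 1) F y) (Y := Y) (Q := Q) (S := S) ?_ ?_ hL' h1' ?_ hdev hE0 rfl hvar hlow hmom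
    (sum_nonneg fun _ _ => sq_nonneg _) hQY
  · have : (2 : ℝ) ≤ ((j + 1 : ℕ) : ℝ) := by exact_mod_cast hk
    push_cast at this
    exact this
  · have : ((32 * (j + 1) : ℕ) : ℝ) ≤ ((m + 2 : ℕ) : ℝ) := by exact_mod_cast h32
    push_cast at this
    linarith
  · rw [← h2']
    ring

end Pool.Agent.Lib.MP_fffc5a_co.T
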