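import Mathlib
import Pool.Agent.Lib.MP_fffc5a_co.T.Decomp
import Pool.Agent.Lib.MP_fffc5a_co.T.HeavyA
import Pool.Agent.Lib.MP_fffc5a_co.T.HeavyB

/-!
A large family with few disjoint pairs is close to a star or fills most of a co-star.
-/

set_option autoImplicit false

open Finset

namespace Pool.Agent.Lib.MP_fffc5a_co.T

/-- the real inequalities -/
theorem dich_real {L N D E A B φ y p q : ℝ} (hL : 10 ^ 6 ≤ L) (hq : 0 ≤ 1 - 2 * p) (hp : 0 < p)
    (hN : N * p = L) (hD : L * (1 - p) ≤ D) (hE : E * p = L * (1 - p)) (hφ : φ * N = L + 1)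
    (hA : A = L * φ + D * y) (hA0 : 0 ≤ A) (hAB : A + B = L + 1) (hy : 74 / 100 ≤ y ^ 2)
    (_ : q = q) : 3 * L ≤ 4 * A ∨ 2 * E ≤ 3 * B := by
  have hL0 : 0 < L := lt_of_lt_of_le (by norm_num) hL
  have hN0 : 0 < N := by
    by_contra hcon
    have : N * p ≤ 0 := mul_nonpos_of_nonpos_of_nonneg (not_lt.mp hcon) hp.le
    linarith
  have hLN : L ≤ N := by
    have h1 : N * p ≤ N * 1 := mul_le_mul_of_nonneg_left (by linarith) hN0.le
    linarith
  -- `φ = p + 1/N`
  have hφp : φ = p + 1 / N := by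
    have h1 : φ * N = (p + 1 / N) * N := by
      rw [hφ, add_mul, one_div, inv_mul_cancel₀ hN0.ne']
      linarith
    exact mul_right_cancel₀ hN0.ne' h1
  have hN1 : 1 / N ≤ 1 / 10 ^ 6 := one_div_le_one_div_of_le (by norm_num) (hL.trans hLN)
  have hN2 : 0 < 1 / N := by positivity
  have h1p : 0 ≤ 1 - p := by linarith
  have hD0 : 0 ≤ D := (mul_nonneg hL0.le h1p).trans hD
  rcases le_total 0 y with hy0 | hy0
  · left
    have hy1 : 86 / 100 ≤ y := by
      by_contra hcon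
      have h2 : y < 86 / 100 := not_le.mp hcon
      nlinarith
    have h3 : L * (1 - p) * (86 / 100) ≤ D * y := mul_le_mul hD hy1 (by norm_num) hD0
    have h4 : L * p ≤ L * φ := mul_le_mul_of_nonneg_left (by linarith) hL0.le
    have h5 : 0 ≤ L * p := by positivity
    rw [hA]
    nlinarith
  · right
    have hy1 : y ≤ -(86 / 100) := by
      by_contra hcon
      have h2 : -(86 / 100) < y := not_le.mp hcon
      nlinarith
    have h3 : D * y ≤ -(86 / 100) * (L * (1 - p)) := by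
      have h4 : D * y ≤ D * (-(86 / 100)) := mul_le_mul_of_nonneg_left hy1 hD0
      linarith
    have h4 : L * φ ≤ L * (p + 1 / 10 ^ 6) := mul_le_mul_of_nonneg_left (by linarith) hL0.le
    have h5 : A ≤ L * (186 / 100 * p - 86 / 100 + 1 / 10 ^ 6) := by
      rw [hA]
      linarith
    have h6 : 0 ≤ 186 / 100 * p - 86 / 100 + 1 / 10 ^ 6 := by
      by_contra hcon
      have h7 : L * (186 / 100 * p - 86 / 100 + 1 / 10 ^ 6) < 0 :=
        mul_neg_of_pos_of_neg hL0 (not_le.mp hcon)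
      linarith
    have h7 : 46 / 100 ≤ p := by linarith
    have h8 : A ≤ L * (8 / 100) := h5.trans (mul_le_mul_of_nonneg_left (by linarith) hL0.le)
    have h9 : E ≤ L * (54 / 46) := by
      have h10 : E * p ≤ L * (54 / 46) * p := by
        rw [hE]
        have h11 : L * (1 - p) ≤ L * (54 / 46 * p) :=
          mul_le_mul_of_nonneg_left (by linarith) hL0.le
        linarith
      exact le_of_mul_le_mul_right h10 hp
    linarith

/-- Notation as in HeavyA, `δ = #(F ∋ x)/L = φ + y x (n-k)/(n-1)` (`degree`),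
`p ≤ φ ≤ p + 10⁻⁶`, `(n-k)/(n-1) ≥ 1 - p`. `|y x| ≥ 0.86`. If `y x ≥ 0.86`:
`δ ≥ p + 0.86 (1-p) ≥ 3/4`. If `y x ≤ -0.86`: `0 ≤ δ ≤ 1.86 p - 0.86 + 10⁻⁶`, so `p ≥ 0.4623`,
`δ ≤ 0.0701`, `#(F ∌ x) ≥ 0.9299 L`, `C(n-1,k) = L (1-p)/p ≤ 1.1631 L`. -/
theorem dich_num {β : Type*} [Fintype β] [DecidableEq β] {n k : ℕ} (hk : 2 ≤ k)
    (hn : 2 * k + 1 ≤ n) (hN : Fintype.card β = n) {F : Finset (Finset β)}
    (hcard : F.card = (n - 1).choose (k - 1) + 1) (hL : 10 ^ 6 ≤ (n - 1).choose (k - 1))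
    {y : β → ℝ} (hy : IsLin k F y) {x : β} (hx : 74 / 100 ≤ y x ^ 2) :
    3 * (n - 1).choose (k - 1) ≤ 4 * (F.filter fun s => x ∈ s).card ∨
      2 * (n - 1).choose k ≤ 3 * (F.filter fun s => x ∉ s).card := by
  have hdeg := hy.degree x
  rw [hN] at hdeg
  obtain ⟨m, rfl⟩ : ∃ m, n = m + 2 := ⟨n - 2, by omega⟩
  obtain ⟨j, rfl⟩ : ∃ j, k = j + 1 := ⟨k - 1, by omega⟩
  have e1 : m + 2 - 1 = m + 1 := rfl
  have e2 : j + 1 - 1 = j := rfl
  have e3 : m + 2 - 2 = m := rfl
  rw [e1, e2] at hcard hL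
  rw [e1, e2, e3] at hdeg
  rw [e1, e2]
  have hjm : j ≤ m + 1 := by omega
  have h1 : (m + 2) * (m + 1).choose j = (m + 2).choose (j + 1) * (j + 1) :=
    Nat.add_one_mul_choose_eq (m + 1) j
  have h2 : (m + 1).choose (j + 1) * (j + 1) = (m + 1).choose j * (m + 1 - j) :=
    Nat.choose_succ_right_eq (m + 1) j
  have h3 : m.choose j * (m + 1) = (m + 1).choose j * (m + 1 - j) :=
    Nat.choose_mul_succ_eq m j
  have hAB := Finset.card_filter_add_card_filter_not (s := F) (fun s => x ∈ s)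
  have h1' : ((m : ℝ) + 2) * ((m + 1).choose j : ℝ) =
      ((m + 2).choose (j + 1) : ℝ) * ((j : ℝ) + 1) := by exact_mod_cast h1
  have h2' : ((m + 1).choose (j + 1) : ℝ) * ((j : ℝ) + 1) =
      ((m + 1).choose j : ℝ) * ((m : ℝ) + 1 - j) := by
    have := congrArg (Nat.cast (R := ℝ)) h2
    push_cast [Nat.cast_sub hjm] at this
    exact this
  have h3' : (m.choose j : ℝ) * ((m : ℝ) + 1) =
      ((m + 1).choose j : ℝ) * ((m : ℝ) + 1 - j) := by
    have := congrArg (Nat.cast (R := ℝ)) h3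
    push_cast [Nat.cast_sub hjm] at this
    exact this
  have hm2 : (0 : ℝ) < (m : ℝ) + 2 := by positivity
  have hF : (F.card : ℝ) = ((m + 1).choose j : ℝ) + 1 := by rw [hcard]; push_cast; ring
  have hN0 : ((m + 2).choose (j + 1) : ℝ) ≠ 0 := by
    have : 0 < (m + 2).choose (j + 1) := Nat.choose_pos (by omega)
    exact_mod_cast this.ne'
  have key := dich_real (L := ((m + 1).choose j : ℝ)) (N := ((m + 2).choose (j + 1) : ℝ))
    (D := (m.choose j : ℝ)) (E := ((m + 1).choose (j + 1) : ℝ))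
    (A := ((F.filter fun s => x ∈ s).card : ℝ)) (B := ((F.filter fun s => x ∉ s).card : ℝ))
    (φ := (F.card : ℝ) / ((m + 2).choose (j + 1) : ℝ)) (y := y x)
    (p := ((j : ℝ) + 1) / ((m : ℝ) + 2)) (q := 0) (by exact_mod_cast hL) (by
      have h4 : 2 * (((j : ℝ) + 1) / ((m : ℝ) + 2)) ≤ 1 := by
        rw [← mul_div_assoc, div_le_one hm2]
        have : 2 * (j + 1) ≤ m + 2 := by omega
        exact_mod_cast this
      linarith) (by positivity) (by
      rw [← mul_div_assoc, ← h1', mul_div_assoc, mul_comm, div_mul_cancel₀ _ hm2.ne']) (by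
      have h4 : (0 : ℝ) ≤ (m.choose j : ℝ) := by positivity
      have h5 : 1 - ((j : ℝ) + 1) / ((m : ℝ) + 2) = ((m : ℝ) + 1 - j) / ((m : ℝ) + 2) := by
        field_simp
        ring
      rw [h5, ← mul_div_assoc, ← h3', div_le_iff₀ hm2]
      nlinarith) (by
      have h5 : 1 - ((j : ℝ) + 1) / ((m : ℝ) + 2) = ((m : ℝ) + 1 - j) / ((m : ℝ) + 2) := by
        field_simp
        ring
      rw [h5, ← mul_div_assoc, ← mul_div_assoc, h2']) (by
      rw [div_mul_cancel₀ _ hN0, hF]) hdeg (by positivity) (by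
      rw [← hF]
      exact_mod_cast hAB) hx rfl
  rcases key with h | h
  · left
    exact_mod_cast h
  · right
    exact_mod_cast h

theorem dichotomy {β : Type*} [Fintype β] [DecidableEq β] {k a : ℕ} (hk : 2 ≤ k) (ha : 1 ≤ a)
    (hN : Fintype.card β = 2 * k + a) (h20 : 20 ≤ 2 * k + a) {F : Finset (Finset β)}
    (hF : ∀ s ∈ F, s.card = k) (hcard : F.card = (2 * k + a - 1).choose (k - 1) + 1)
    (hL : 10 ^ 6 ≤ (2 * k + a - 1).choose (k - 1))
    (hdp : 500000 * dp F F ≤ (k + a - 2).choose (a - 1) * F.card) :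
    ∃ x, 3 * (2 * k + a - 1).choose (k - 1) ≤ 4 * (F.filter fun s => x ∈ s).card ∨
      2 * (2 * k + a - 1).choose k ≤ 3 * (F.filter fun s => x ∉ s).card := by
  obtain ⟨y, hy, hdev⟩ := decomp hk ha hN hF (by rw [hcard]; exact Nat.le_succ _)
  have hC : 0 < (k + a - 2).choose (a - 1) := Nat.choose_pos (by omega)
  have hC' : (0 : ℝ) < ((k + a - 2).choose (a - 1) : ℝ) := by exact_mod_cast hC
  have hdp' : 500000 * (dp F F : ℝ) ≤ ((k + a - 2).choose (a - 1) : ℝ) * F.card := by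
    exact_mod_cast hdp
  have hd : 500000 * dev k F y ≤ F.card := by
    have h1 : ((k + a - 2).choose (a - 1) : ℝ) * (500000 * dev k F y) ≤
        ((k + a - 2).choose (a - 1) : ℝ) * F.card := by linarith
    exact le_of_mul_le_mul_left h1 hC'
  have hx : ∃ x, 74 / 100 ≤ y x ^ 2 := by
    rcases le_total (2 * k + a) (32 * k) with h | h
    · exact heavyA hk (by omega) hN h20 h hcard hL hy hd
    · exact heavyB hk hN h hF hcard hL hy hd
  obtain ⟨x, hx⟩ := hx
  exact ⟨x, dich_num hk (by omega) hN hcard hL hy hx⟩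

end Pool.Agent.Lib.MP_fffc5a_co.T
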