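import Mathlib
import Pool.Agent.Lib.MP_fffc5a_co.T.Defs
import Pool.Agent.Lib.MP_fffc5a_co.Endgame

/-!
Maximum degree of a family which fills two thirds of a co-star.
-/

set_option autoImplicit false

open Finset

namespace Pool.Agent.Lib.MP_fffc5a_co.T

/-- `P = powersetCard k (univ.erase x)`, `F' = {s ∈ F : x ∉ s} ⊆ P`, `D = C(k+a-1,k)`.
`dp F' P = |F'| D` (`k16_dp_left`), `dp F' (P \ F') ≤ dp P (P \ F') = |P \ F'| D ≤ |F'| D/2`
(`k16_dp_right`), so `|F'| D/2 ≤ dp F' F' ≤ |F'| d`. -/
theorem costar_degree {β : Type*} [Fintype β] [DecidableEq β] {k a d : ℕ} (hk : 1 ≤ k)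
    (ha : 1 ≤ a) (hN : Fintype.card β = 2 * k + a) {F : Finset (Finset β)}
    (hF : ∀ s ∈ F, s.card = k) (x : β)
    (hd : ∀ G ∈ F, (F.filter fun B => Disjoint G B).card ≤ d)
    (h3 : 2 * (2 * k + a - 1).choose k ≤ 3 * (F.filter fun s => x ∉ s).card) :
    (k + a - 1).choose k ≤ 2 * d := by
  obtain ⟨P, hP⟩ : ∃ P : Finset (Finset β), P = powersetCard k (univ.erase x) := ⟨_, rfl⟩
  obtain ⟨F', hF'⟩ : ∃ F' : Finset (Finset β), F' = F.filter fun s => x ∉ s := ⟨_, rfl⟩
  obtain ⟨D, hD⟩ : ∃ D : ℕ, D = (k + a - 1).choose k := ⟨_, rfl⟩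
  rw [← hF'] at h3
  rw [← hD]
  have hsub : F' ⊆ P := by
    intro s hs
    rw [hF', mem_filter] at hs
    rw [hP, mem_powersetCard]
    refine ⟨fun y hy => mem_erase.2 ⟨?_, mem_univ _⟩, hF s hs.1⟩
    rintro rfl
    exact hs.2 hy
  have hPc : P.card = (2 * k + a - 1).choose k := by
    rw [hP, card_powersetCard, card_erase_of_mem (mem_univ x), card_univ, hN]
  have hPpos : 0 < P.card := by
    rw [hPc]
    exact Nat.choose_pos (by omega)
  rw [← hPc] at h3
  have e1 : dp F' P = F'.card * D := by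
    rw [hP, hD]
    exact k16_dp_left hN ha x (by rw [← hP]; exact hsub)
  have e2 : dp P (P \ F') = (P \ F').card * D := by
    have h := k16_dp_right hN ha x (X := P \ F') (by rw [← hP]; exact sdiff_subset)
    rw [← hP] at h
    rw [h, hD]
  have hc : (P \ F').card + F'.card = P.card := by
    rw [card_sdiff_of_subset hsub]
    have := card_le_card hsub
    omega
  have e3 : dp F' P ≤ dp F' F' + dp P (P \ F') := by
    unfold dp
    refine le_trans (card_le_card ?_) (card_union_le _ _)
    intro p hp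
    simp only [mem_filter, mem_product, mem_union, mem_sdiff] at hp ⊢
    by_cases q : p.2 ∈ F'
    · exact Or.inl ⟨⟨hp.1.1, q⟩, hp.2⟩
    · exact Or.inr ⟨⟨hsub hp.1.1, hp.1.2, q⟩, hp.2⟩
  have e4 : dp F' F' ≤ F'.card * d := by
    unfold dp
    rw [card_filter, sum_product, ← smul_eq_mul, ← sum_const]
    refine sum_le_sum fun G hG => ?_
    rw [← card_filter]
    have hGF : G ∈ F := by
      rw [hF', mem_filter] at hG
      exact hG.1
    refine le_trans (card_le_card ?_) (hd G hGF)
    intro B hB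
    rw [mem_filter] at hB ⊢
    refine ⟨?_, hB.2⟩
    have := hB.1
    rw [hF', mem_filter] at this
    exact this.1
  have hFpos : 0 < F'.card := by omega
  have e5 : 2 * ((P \ F').card * D) ≤ F'.card * D := by
    have h : 2 * (P \ F').card ≤ F'.card := by omega
    calc 2 * ((P \ F').card * D) = (2 * (P \ F').card) * D := by ring
      _ ≤ F'.card * D := Nat.mul_le_mul_right _ h
  have e6 : F'.card * D ≤ F'.card * (2 * d) := by
    have h7 : F'.card * D ≤ F'.card * d + (P \ F').card * D := by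
      calc F'.card * D = dp F' P := e1.symm
        _ ≤ dp F' F' + dp P (P \ F') := e3
        _ ≤ F'.card * d + (P \ F').card * D := by rw [e2]; exact Nat.add_le_add_right e4 _
    have h8 : F'.card * (2 * d) = 2 * (F'.card * d) := by ring
    omega
  exact Nat.le_of_mul_le_mul_left e6 hFpos

end Pool.Agent.Lib.MP_fffc5a_co.T
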