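import Mathlib
import Pool.Agent.Lib.MP_fffc5a_co.T.StarSpec
import Pool.Agent.Lib.MP_fffc5a_co.LocalTransfer

/-!
Maximum degree of a family close to a star.
-/

set_option autoImplicit false

open Finset

namespace Pool.Agent.Lib.MP_fffc5a_co.T

/-- the embedding of the complement of a point -/
private def sd_em {n : ℕ} (x : Fin n) : {y : Fin n // y ≠ x} ↪ Fin n :=
  Function.Embedding.subtype _

private theorem sd_not_mem {n : ℕ} (x : Fin n) (Y : Finset {y : Fin n // y ≠ x}) :
    x ∉ Y.map (sd_em x) := by
  intro h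
  obtain ⟨y, _, hy⟩ := Finset.mem_map.1 h
  exact y.2 hy

private theorem sd_surj {n : ℕ} (x : Fin n) {s : Finset (Fin n)} (hs : x ∉ s) :
    (s.subtype (fun y => y ≠ x)).map (sd_em x) = s := by
  unfold sd_em
  exact Finset.subtype_map_of_mem (fun y hy h => hs (h ▸ hy))

/-- As `local_transfer`: on the points different from `x`, `E` = the members of `F` without `x`,
`M` = the `(k+a)`-sets whose complement (a `k`-set containing `x`) is not in `F`;
`|E| - |M| = |F| - C(2k+a-1,k-1) > 0`, `4 |M| ≤ C(2k+a-1,k-1)` by `h3`; a `(k+a)`-set `Y ⊇ G`,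
`Y ∉ M` is the complement of a member of `F` disjoint from `G`. Apply `star_spec`. -/
theorem star_degree {k a d : ℕ} (hk : 2 ≤ k) (ha : 1 ≤ a)
    {F : Finset (Finset (Fin (2 * k + a)))} (hF : ∀ s ∈ F, s.card = k)
    (x : Fin (2 * k + a)) (hd : ∀ G ∈ F, (F.filter fun B => Disjoint G B).card ≤ d)
    (hcard : (2 * k + a - 1).choose (k - 1) < F.card)
    (h3 : 3 * (2 * k + a - 1).choose (k - 1) ≤ 4 * (F.filter fun s => x ∈ s).card) :
    (k + a - 1).choose a * a ≤ 4 * (k + a - 1) * d := by
  have hcardβ : Fintype.card {y : Fin (2 * k + a) // y ≠ x} = 2 * k + a - 1 := by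
    rw [Fintype.card_subtype_compl]
    simp
  set E : Finset (Finset {y : Fin (2 * k + a) // y ≠ x}) :=
    univ.filter (fun Y => Y.map (sd_em x) ∈ F) with hE
  set M : Finset (Finset {y : Fin (2 * k + a) // y ≠ x}) :=
    (powersetCard (k + a) univ).filter (fun Y => (Y.map (sd_em x))ᶜ ∉ F) with hM
  have hEcard : E.card = (F.filter fun s => x ∉ s).card := by
    rw [← Finset.card_image_of_injective E (Finset.map_injective (sd_em x))]
    congr 1
    ext s
    rw [Finset.mem_image, Finset.mem_filter]
    constructor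
    · rintro ⟨Y, hY, rfl⟩
      exact ⟨(Finset.mem_filter.1 hY).2, sd_not_mem x Y⟩
    · rintro ⟨hs, hxs⟩
      refine ⟨s.subtype (fun y => y ≠ x), ?_, sd_surj x hxs⟩
      rw [hE, Finset.mem_filter]
      exact ⟨mem_univ _, by rw [sd_surj x hxs]; exact hs⟩
  have hMcard : (F.filter fun s => x ∈ s).card + M.card = (2 * k + a - 1).choose (k - 1) := by
    have h1 : (F.filter fun s => x ∈ s).card =
        ((powersetCard (k + a) univ).filter
          (fun Y : Finset {y : Fin (2 * k + a) // y ≠ x} => (Y.map (sd_em x))ᶜ ∈ F)).card := by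
      symm
      have hinj : Function.Injective
          (fun Y : Finset {y : Fin (2 * k + a) // y ≠ x} => (Y.map (sd_em x))ᶜ) :=
        fun Y Y' h => Finset.map_injective (sd_em x) (compl_injective h)
      rw [← Finset.card_image_of_injective _ hinj]
      congr 1
      ext s
      rw [Finset.mem_image, Finset.mem_filter]
      constructor
      · rintro ⟨Y, hY, rfl⟩
        exact ⟨(Finset.mem_filter.1 hY).2, Finset.mem_compl.2 (sd_not_mem x Y)⟩
      · rintro ⟨hs, hxs⟩
        have hxs' : x ∉ sᶜ := fun h => (Finset.mem_compl.1 h) hxs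
        refine ⟨sᶜ.subtype (fun y => y ≠ x), ?_, by rw [sd_surj x hxs', compl_compl]⟩
        rw [Finset.mem_filter, Finset.mem_powersetCard]
        refine ⟨⟨subset_univ _, ?_⟩, by rw [sd_surj x hxs', compl_compl]; exact hs⟩
        rw [← Finset.card_map (sd_em x), sd_surj x hxs', Finset.card_compl, hF s hs,
          Fintype.card_fin]
        omega
    rw [h1, hM, Finset.card_filter_add_card_filter_not, Finset.card_powersetCard,
      Finset.card_univ, hcardβ]
    rw [← Nat.choose_symm (show k - 1 ≤ 2 * k + a - 1 by omega)]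
    congr 1
    omega
  have hsplit : (F.filter fun s => x ∈ s).card + (F.filter fun s => x ∉ s).card = F.card :=
    Finset.card_filter_add_card_filter_not (fun s => x ∈ s)
  refine star_spec hk ha hcardβ (E := E) (M := M) ?_ ?_ ?_ (by omega) (by omega)
  · intro s hs
    rw [← Finset.card_map (sd_em x)]
    exact hF _ (Finset.mem_filter.1 hs).2
  · intro Y hY
    exact (Finset.mem_powersetCard.1 (Finset.mem_filter.1 hY).1).2
  · intro G hG
    refine le_trans ?_ (hd (G.map (sd_em x)) (Finset.mem_filter.1 hG).2)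
    refine Finset.card_le_card_of_injOn (fun Y => (Y.map (sd_em x))ᶜ) ?_ ?_
    · intro Y hY
      rw [Finset.mem_coe, Finset.mem_filter] at hY
      obtain ⟨hY1, hGY, hYM⟩ := hY
      rw [Finset.mem_coe, Finset.mem_filter]
      constructor
      · by_contra hcon
        exact hYM (Finset.mem_filter.2 ⟨hY1, hcon⟩)
      · rw [Finset.disjoint_right]
        intro b hb hbG
        exact (Finset.mem_compl.1 hb) (Finset.map_subset_map.2 hGY hbG)
    · intro Y _ Y' _ h
      exact Finset.map_injective (sd_em x) (compl_injective h)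

end Pool.Agent.Lib.MP_fffc5a_co.T
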