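import Mathlib
import Pool.Agent.Lib.MP_fffc5a_co.T.Dich
import Pool.Agent.Lib.MP_fffc5a_co.T.StarDeg
import Pool.Agent.Lib.MP_fffc5a_co.T.CoStar
import Pool.Agent.Lib.MP_fffc5a_co.Deg

/-!
The upper bound.
-/

set_option autoImplicit false

open Finset

namespace Pool.Agent.Lib.MP_fffc5a_co.T

private lemma up_t_le {k a : ℕ} (hk : 1 ≤ k) (ha : 1 ≤ a) :
    min ((k + a - 1).choose (k - 1)) ((k + a - 1).choose k) ≤ 2 * (k + a - 2).choose (a - 1) := by
  obtain ⟨j, rfl⟩ : ∃ j, k = j + 1 := ⟨k - 1, by omega⟩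
  obtain ⟨b, rfl⟩ : ∃ b, a = b + 1 := ⟨a - 1, by omega⟩
  have e1 : j + 1 + (b + 1) - 1 = j + b + 1 := by omega
  have e2 : j + 1 + (b + 1) - 2 = j + b := by omega
  have e3 : j + 1 - 1 = j := rfl
  have e4 : b + 1 - 1 = b := rfl
  rw [e1, e2, e3, e4]
  have h0 : (j + b).choose b = (j + b).choose j := by
    rw [← Nat.choose_symm (show b ≤ j + b by omega)]
    congr 1
    omega
  have h1 : (j + b + 1) * (j + b).choose j = (j + b + 1).choose (j + 1) * (j + 1) :=
    Nat.add_one_mul_choose_eq (j + b) j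
  have h2 : (j + b).choose j * (j + b + 1) = (j + b + 1).choose j * (j + b + 1 - j) :=
    Nat.choose_mul_succ_eq (j + b) j
  have e5 : j + b + 1 - j = b + 1 := by omega
  rw [e5] at h2
  rw [h0]
  rcases le_total j b with h | h
  · refine (min_le_left _ _).trans ?_
    have h3 : (j + b + 1).choose j * (b + 1) ≤ 2 * (j + b).choose j * (b + 1) := by
      rw [← h2]
      calc (j + b).choose j * (j + b + 1) ≤ (j + b).choose j * (2 * (b + 1)) := by
            apply Nat.mul_le_mul_left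
            omega
        _ = 2 * (j + b).choose j * (b + 1) := by ring
    exact le_of_mul_le_mul_right h3 (Nat.succ_pos b)
  · refine (min_le_right _ _).trans ?_
    have h3 : (j + b + 1).choose (j + 1) * (j + 1) ≤ 2 * (j + b).choose j * (j + 1) := by
      rw [← h1]
      calc (j + b + 1) * (j + b).choose j ≤ (2 * (j + 1)) * (j + b).choose j := by
            apply Nat.mul_le_mul_right
            omega
        _ = 2 * (j + b).choose j * (j + 1) := by ring
    exact le_of_mul_le_mul_right h3 (Nat.succ_pos j)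

private lemma up_star {k a d : ℕ} (hk : 1 ≤ k) (ha : 1 ≤ a) (hd : 1 ≤ d)
    (h1 : 10 ^ 6 * d ≤ (k + a - 1).choose (k - 1)) (h2 : 10 ^ 6 * d ≤ (k + a - 1).choose k)
    (h3 : (k + a - 1).choose a * a ≤ 4 * (k + a - 1) * d) : False := by
  obtain ⟨j, rfl⟩ : ∃ j, k = j + 1 := ⟨k - 1, by omega⟩
  obtain ⟨b, rfl⟩ : ∃ b, a = b + 1 := ⟨a - 1, by omega⟩
  have e1 : j + 1 + (b + 1) - 1 = j + b + 1 := by omega
  have e3 : j + 1 - 1 = j := rfl
  rw [e1] at h1 h2 h3
  rw [e3] at h1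
  have h0 : (j + b + 1).choose (b + 1) = (j + b + 1).choose j := by
    rw [← Nat.choose_symm (show b + 1 ≤ j + b + 1 by omega)]
    congr 1
    omega
  rw [h0] at h3
  have h4 : (j + b + 1).choose (j + 1) * (j + 1) = (j + b + 1).choose j * (j + b + 1 - j) :=
    Nat.choose_succ_right_eq (j + b + 1) j
  have e5 : j + b + 1 - j = b + 1 := by omega
  rw [e5] at h4
  have h5 : 10 ^ 6 * d * (b + 1) ≤ (j + b + 1).choose j * (b + 1) := Nat.mul_le_mul_right _ h1
  have h6 : 10 ^ 6 * d * (j + 1) ≤ (j + b + 1).choose j * (b + 1) := by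
    rw [← h4]
    exact Nat.mul_le_mul_right _ h2
  have h7 : 4 * (j + b + 1) * d * 2 < 10 ^ 6 * d * (b + 1) + 10 ^ 6 * d * (j + 1) := by
    have h8 : 4 * (j + b + 1) * d * 2 = (8 * (j + b + 1)) * d := by ring
    have h9 : 10 ^ 6 * d * (b + 1) + 10 ^ 6 * d * (j + 1) = (10 ^ 6 * (j + b + 2)) * d := by ring
    rw [h8, h9]
    exact Nat.mul_lt_mul_of_pos_right (by omega) hd
  omega

private lemma up_one {n k : ℕ} (hn : 2 * k + 2 ≤ n)
    (F : Finset (Finset (Fin n))) (hF : ∀ s ∈ F, s.card = k) (hUI : UI 1 1 F) :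
    F.card ≤ (n - 1).choose (k - 1) := by
  refine Finset.erdos_ko_rado (r := k) ?_ ?_ (by omega)
  · intro s hs t ht hst
    refine hUI {s} (Finset.singleton_subset_iff.2 hs) {t} (Finset.singleton_subset_iff.2 ht)
      (Finset.card_singleton s) (Finset.card_singleton t) ?_
    rw [Finset.singleton_biUnion, Finset.singleton_biUnion]
    exact hst
  · intro s hs
    exact hF s hs

private lemma up_deg {α : Type*} [DecidableEq α] {v : ℕ} (hv : 1 ≤ v) {F : Finset (Finset α)}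
    (hUI : UI 1 v F) {G : Finset α} (hG : G ∈ F) :
    (F.filter fun B => Disjoint G B).card ≤ v - 1 := by
  have h2 := common_nbrs hv hUI (T := {G}) (Finset.singleton_subset_iff.2 hG)
    (Finset.card_singleton G)
  refine le_trans (Finset.card_le_card ?_) h2
  intro B hB'
  rw [Finset.mem_filter] at hB' ⊢
  exact ⟨hB'.1, fun G' hG' => by rw [Finset.mem_singleton.1 hG']; exact hB'.2⟩

/-- `v = 1`: `F` is intersecting, Mathlib's Erdős-Ko-Rado theorem. `v ≥ 2`: then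
`t = min … ≥ 10⁶`, so `k ≥ 2` (`k = 1` gives `t ≤ C(n-2,0) = 1`), `n = 2k+a`, `a ≥ 2`, `2^n ≥ 10⁶` so
`n ≥ 20`, `L = C(n-1,k-1) ≥ C(n-k-1,k-1) ≥ 10⁶`. If `|F| > L` take `F' ⊆ F` with `L + 1` members;
every member of `F'` is disjoint from at most `d = v - 1` members of `F'`
(`UI 1 v`), `dp F' F' ≤ d |F'|` (`dg_dp_le`), `t ≤ 2 C(k+a-2,a-1)`
(`k C(k+a-1,a-1) = (k+a-1) C(k+a-2,a-1)`, `a C(k+a-1,a) = (k+a-1) C(k+a-2,a-1)`), so `dichotomy`
applies. Star: `star_degree` gives `a C(k+a-1,a) ≤ 4 (k+a-1) d`, but `10⁶ d ≤ t` and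
`t ≤ min (C(k+a-1,a), (a/k) C(k+a-1,a))` (`C(n-k-1,k-1) = C(k+a-1,a)`,
`k C(k+a-1,a-1) = a C(k+a-1,a)`), contradiction. Co-star: `costar_degree`,
`C(n-k-1,k) = C(k+a-1,k) ≤ 2d`, contradiction. -/
theorem upper {n k v : ℕ} (hk : 1 ≤ k) (hn : 2 * k + 2 ≤ n) (hv : 1 ≤ v)
    (h : 10 ^ 6 * (v - 1) ≤ min ((n - k - 1).choose (k - 1)) ((n - k - 1).choose k))
    (F : Finset (Finset (Fin n))) (hF : ∀ s ∈ F, s.card = k) (hUI : UI 1 v F) :
    F.card ≤ (n - 1).choose (k - 1) := by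
  rcases Nat.lt_or_ge v 2 with hv1 | hv2
  · obtain rfl : v = 1 := by omega
    exact up_one hn F hF hUI
  by_contra hcon
  have hcon := not_le.mp hcon
  obtain ⟨a, rfl⟩ : ∃ a, n = 2 * k + a := ⟨n - 2 * k, by omega⟩
  have ha : 2 ≤ a := by omega
  obtain ⟨d, rfl⟩ : ∃ d, v = d + 1 := ⟨v - 1, by omega⟩
  have hd1 : 1 ≤ d := by omega
  have e1 : 2 * k + a - k - 1 = k + a - 1 := by omega
  have e2 : d + 1 - 1 = d := rfl
  rw [e1, e2] at h
  have hA : 10 ^ 6 * d ≤ (k + a - 1).choose (k - 1) := h.trans (min_le_left _ _)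
  have hB : 10 ^ 6 * d ≤ (k + a - 1).choose k := h.trans (min_le_right _ _)
  have hC : 10 ^ 6 * d ≤ 2 * (k + a - 2).choose (a - 1) := h.trans (up_t_le hk (by omega))
  have hd6 : 10 ^ 6 ≤ 10 ^ 6 * d := Nat.le_mul_of_pos_right _ hd1
  have hk2 : 2 ≤ k := by
    by_contra hk1
    obtain rfl : k = 1 := by omega
    rw [show 1 - 1 = 0 from rfl, Nat.choose_zero_right] at hA
    omega
  have hL : 10 ^ 6 ≤ (2 * k + a - 1).choose (k - 1) :=
    (hd6.trans hA).trans (Nat.choose_le_choose _ (by omega))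
  have h20 : 20 ≤ 2 * k + a := by
    by_contra h20
    have h21 : (k + a - 1).choose k ≤ 2 ^ (k + a - 1) := Nat.choose_le_two_pow _ _
    have h22 : 2 ^ (k + a - 1) ≤ 2 ^ 18 := Nat.pow_le_pow_right (by norm_num) (by omega)
    have h23 : 10 ^ 6 ≤ 2 ^ 18 := ((hd6.trans hB).trans h21).trans h22
    norm_num at h23
  obtain ⟨F', hF'F, hF'card⟩ := Finset.exists_subset_card_eq (Nat.succ_le_of_lt hcon)
  have hF' : ∀ s ∈ F', s.card = k := fun s hs => hF s (hF'F hs)
  have hUI' : UI 1 (d + 1) F' := fun A hA' B hB' => hUI A (hA'.trans hF'F) B (hB'.trans hF'F)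
  have hdeg : ∀ G ∈ F', (F'.filter fun B => Disjoint G B).card ≤ d :=
    fun G hG => up_deg (by omega) hUI' hG
  have hdp : 500000 * dp F' F' ≤ (k + a - 2).choose (a - 1) * F'.card := by
    have h1 : dp F' F' ≤ F'.card * (d + 1 - 1) := dg_dp_le (by omega) hUI' (Finset.Subset.refl _)
    rw [e2] at h1
    have h2 : 500000 * d ≤ (k + a - 2).choose (a - 1) := by omega
    calc 500000 * dp F' F' ≤ 500000 * (F'.card * d) := Nat.mul_le_mul_left _ h1
      _ = (500000 * d) * F'.card := by ring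
      _ ≤ (k + a - 2).choose (a - 1) * F'.card := Nat.mul_le_mul_right _ h2
  obtain ⟨x, hx | hx⟩ := dichotomy hk2 (by omega) (Fintype.card_fin _) h20 hF' hF'card hL hdp
  · have h1 := star_degree hk2 (by omega) hF' x hdeg (by rw [hF'card]; exact Nat.lt_succ_self _) hx
    exact up_star hk (by omega) hd1 hA hB h1
  · have h1 := costar_degree hk (by omega) (Fintype.card_fin _) hF' x hdeg hx
    omega

end Pool.Agent.Lib.MP_fffc5a_co.T
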